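import Pool.Agent.Lib.MP_052029_lc.U.Mix

/-!
Average over the coordinate and over the partition of the coordinates.
-/

set_option autoImplicit false

namespace Z50

open Finset

variable {ι : Type*} [Fintype ι] [DecidableEq ι] {n : ℕ}

/-- the law of the player `w` with the bit `i` fixed to `u` -/
noncomputable def LL (lam : (Fin n → Bool) → Finset ι → ℝ) (w : Fin n → Bool) (i : Fin n)
    (u : Bool) : Finset ι → ℝ := mixL (Function.update (rho w) i (dl u)) lam

/-- the law of the player `w` -/
noncomputable def LM (lam : (Fin n → Bool) → Finset ι → ℝ) (w : Fin n → Bool) :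
    Finset ι → ℝ := mixL (rho w) lam

variable {lam lam' : (Fin n → Bool) → Finset ι → ℝ}

omit [Fintype ι] [DecidableEq ι] in
lemma LL_mix {w : Fin n → Bool} {i : Fin n} (h : w i = true) :
    mix (LL lam w i false) (LL lam w i true) = LM lam w := by
  funext S
  unfold mix LL LM mixL
  rw [← Finset.sum_add_distrib, Finset.sum_div]
  refine Finset.sum_congr rfl fun x _ => ?_
  rw [half_sum h x]
  ring

omit [Fintype ι] [DecidableEq ι] in
lemma LL_false {w : Fin n → Bool} {i : Fin n} (h : w i = false) :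
    LL lam w i false = LM lam w := by
  unfold LL LM
  rw [rho_false h]

omit [Fintype ι] [DecidableEq ι] in
lemma LL_flip (w : Fin n → Bool) (i : Fin n) (b u : Bool) :
    LL lam (Function.update w i b) i u = LL lam w i u := by
  unfold LL
  rw [rho_flip]

omit [DecidableEq ι] in
lemma LL_law (hl : ∀ x, Law (lam x)) (w : Fin n → Bool) (i : Fin n) (u : Bool) :
    Law (LL lam w i u) := mixL_law (upd_nonneg w i u) (upd_sum w i u) hl

omit [DecidableEq ι] in
lemma LM_law (hl : ∀ x, Law (lam x)) (w : Fin n → Bool) : Law (LM lam w) :=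
  mixL_law (rho_nonneg w) (rho_sum w) hl

lemma up_diff {w : Fin n → Bool} {i : Fin n} (h : w i = true) (J : Finset ι) :
    up (LL lam w i true) J - up (LL lam w i false) J =
      2 * ∑ x, wt (rho w) x * up (lam x) J * sgn (x i) := by
  unfold LL
  rw [up_mixL, up_mixL, ← Finset.sum_sub_distrib, Finset.mul_sum]
  refine Finset.sum_congr rfl fun x _ => ?_
  rw [← sub_mul, half_diff h x]
  ring

/-- the sum of the distances over the coordinates of the player `w` -/
lemma sum_dist (hl : ∀ x, Law (lam x)) (w : Fin n → Bool) {c Λ : ℝ} (hc : 0 < c) (hΛ : 0 < Λ)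
    (hcΛ : c ^ 2 = 2 * Real.log Λ) (J : Finset ι) :
    ∑ i ∈ univ.filter (fun i => w i = true),
      |up (LL lam w i true) J - up (LL lam w i false) J| ≤
      2 * Real.sqrt n * (c * up (LM lam w) J - up (LM lam w) J / c + 1 / (c * Λ)) := by
  have h := level_lin w (fun x => up (lam x) J) (fun x => up_nonneg (hl x).nonneg J)
    (fun x => up_le_one (hl x) J) hc hΛ hcΛ
  have e : ∑ i ∈ univ.filter (fun i => w i = true),
      |up (LL lam w i true) J - up (LL lam w i false) J| =
      ∑ i ∈ univ.filter (fun i => w i = true),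
        |2 * ∑ x, wt (rho w) x * up (lam x) J * sgn (x i)| := by
    refine Finset.sum_congr rfl fun i hi => ?_
    rw [up_diff (mem_filter.1 hi).2]
  rw [e]
  refine h.trans (le_of_eq ?_)
  unfold LM
  rw [up_mixL]

/-- the constant function of Alice's history is multiplied by at most `card ι` -/
lemma Op_const_le {p q : Finset ι → ℝ} (hp : ∀ S, 0 ≤ p S) (hq : ∀ S, 0 ≤ q S)
    (h : Compat p q) (J K : Finset ι) :
    Op (ker (up q)) (ker (up p)) (fun _ K => up q K) J K ≤ (Fintype.card ι : ℝ) * up q K := by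
  have e := Op_prod (b := ker (up q)) (a := ker (up p)) (fun _ => (1 : ℝ)) (up q) J K
  simp only [one_mul, mul_one] at e
  rw [e]
  refine mul_le_mul ?_ (ker_sum_le hq h.symm K J) ?_ (Nat.cast_nonneg _)
  · calc ∑ j, ker (up q) K j ≤ ∑ _j : ι, (1 : ℝ) :=
        Finset.sum_le_sum fun j _ => ker_up_le_one hq K j
      _ = (Fintype.card ι : ℝ) := by simp
  · exact Finset.sum_nonneg fun k _ => mul_nonneg (ker_up_nn hp J k) (up_nonneg hq _)

lemma It_const_le {p q : Finset ι → ℝ} (hp : ∀ S, 0 ≤ p S) (hq : Law q)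
    (h : Compat p q) (s : ℕ) :
    It (ker (up q)) (ker (up p)) s (fun _ K => up q K) ∅ ∅ ≤ (Fintype.card ι : ℝ) ^ s := by
  have h1 := It_geom (ker_up_nn hq.nonneg) (ker_up_nn hp) (Nat.cast_nonneg (Fintype.card ι))
    (Op_const_le hp hq.nonneg h) s ∅ ∅
  rw [up_empty hq, mul_one] at h1
  exact h1

/-- the sum of the errors of one step over the coordinates of the player `w` -/
lemma sum_XX (hl : ∀ x, Law (lam x)) (hl' : ∀ x, Law (lam' x)) (w : Fin n → Bool)
    (hcomp : Compat (LM lam w) (LM lam' (opp w))) {c Λ : ℝ} (hc : 0 < c) (hΛ : 0 < Λ)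
    (hcΛ : c ^ 2 = 2 * Real.log Λ) (s : ℕ) (hs : (Fintype.card ι : ℝ) ^ (s + 1) ≤ Λ) :
    ∑ i ∈ univ.filter (fun i => w i = true),
      XX (LL lam w i false) (LL lam w i true) (LL lam' (opp w) i false) s ≤
      2 * Real.sqrt n * c := by
  set p := LM lam w with hp
  set q := LM lam' (opp w) with hq
  have hpl : Law p := LM_law hl w
  have hql : Law q := LM_law hl' (opp w)
  have hb : NN (ker (up q)) := ker_up_nn hql.nonneg
  have ha : NN (ker (up p)) := ker_up_nn hpl.nonneg
  -- rewrite the summands
  have e1 : ∑ i ∈ univ.filter (fun i => w i = true),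
      XX (LL lam w i false) (LL lam w i true) (LL lam' (opp w) i false) s =
      ∑ i ∈ univ.filter (fun i => w i = true),
        It (ker (up q)) (ker (up p)) s (Phi (LL lam w i false) (LL lam w i true) q) ∅ ∅ := by
    refine Finset.sum_congr rfl fun i hi => ?_
    have hi' := (mem_filter.1 hi).2
    unfold XX
    rw [LL_mix hi', LL_false (show opp w i = false by simp [opp, hi'])]
  rw [e1, ← It_sum]
  -- the function under the operator
  have e2 : ∀ J K : Finset ι, ∑ i ∈ univ.filter (fun i => w i = true),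
      Phi (LL lam w i false) (LL lam w i true) q J K ≤
      2 * Real.sqrt n * ((c - 1 / c) * Dn p q J K +
        (Fintype.card ι : ℝ) / (c * Λ) * up q K) := by
    intro J K
    unfold Phi
    rw [Finset.sum_comm]
    simp_rw [← Finset.mul_sum]
    have e3 : ∀ k ∈ univ, up q (insert k K) * ∑ i ∈ univ.filter (fun i => w i = true),
        |up (LL lam w i true) (insert k J) - up (LL lam w i false) (insert k J)| ≤
        2 * Real.sqrt n * ((c - 1 / c) * (up p (insert k J) * up q (insert k K)) +
          1 / (c * Λ) * up q K) := by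
      intro k _
      have h1 := sum_dist hl w hc hΛ hcΛ (insert k J)
      have h2 := mul_le_mul_of_nonneg_left h1 (up_nonneg hql.nonneg (insert k K))
      refine h2.trans ?_
      have h3 : 2 * Real.sqrt n * (1 / (c * Λ) * up q (insert k K)) ≤
          2 * Real.sqrt n * (1 / (c * Λ) * up q K) := by
        refine mul_le_mul_of_nonneg_left ?_ (by positivity)
        exact mul_le_mul_of_nonneg_left (up_insert_le hql.nonneg K k) (by positivity)
      have e4 : up q (insert k K) * (2 * Real.sqrt n * (c * up (LM lam w) (insert k J) -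
          up (LM lam w) (insert k J) / c + 1 / (c * Λ))) =
          2 * Real.sqrt n * ((c - 1 / c) * (up p (insert k J) * up q (insert k K))) +
            2 * Real.sqrt n * (1 / (c * Λ) * up q (insert k K)) := by
        rw [← hp]
        ring
      rw [e4]
      linarith
    refine (Finset.sum_le_sum e3).trans (le_of_eq ?_)
    rw [← Finset.mul_sum, Finset.sum_add_distrib, ← Finset.mul_sum, ki hcomp, Finset.sum_const,
      Finset.card_univ, nsmul_eq_mul]
    unfold Dn
    ring
  refine (It_mono hb ha e2 s ∅ ∅).trans ?_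
  rw [It_smul (2 * Real.sqrt n) (fun J K => (c - 1 / c) * Dn p q J K +
        (Fintype.card ι : ℝ) / (c * Λ) * up q K),
    It_add (fun J K => (c - 1 / c) * Dn p q J K)
      (fun _ K => (Fintype.card ι : ℝ) / (c * Λ) * up q K),
    It_smul (c - 1 / c) (Dn p q), It_smul ((Fintype.card ι : ℝ) / (c * Λ)) (fun _ K => up q K),
    It_Dn hcomp]
  have hD : Dn p q ∅ ∅ = 1 := by
    unfold Dn
    rw [up_empty hpl, up_empty hql, mul_one]
  rw [hD, mul_one]
  have h5 := It_const_le hpl.nonneg hql hcomp s
  have h6 : (Fintype.card ι : ℝ) / (c * Λ) *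
      It (ker (up q)) (ker (up p)) s (fun _ K => up q K) ∅ ∅ ≤ 1 / c := by
    have h7 : (Fintype.card ι : ℝ) / (c * Λ) *
        It (ker (up q)) (ker (up p)) s (fun _ K => up q K) ∅ ∅ ≤
        (Fintype.card ι : ℝ) / (c * Λ) * (Fintype.card ι : ℝ) ^ s :=
      mul_le_mul_of_nonneg_left h5 (by positivity)
    refine h7.trans ?_
    have h8 : (Fintype.card ι : ℝ) / (c * Λ) * (Fintype.card ι : ℝ) ^ s =
        (Fintype.card ι : ℝ) ^ (s + 1) / (c * Λ) := by
      rw [pow_succ]
      ring
    rw [h8, div_le_div_iff₀ (by positivity) hc]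
    nlinarith
  refine mul_le_mul_of_nonneg_left ?_ (by positivity)
  linarith

lemma XX_nonneg {l0 l1 nu : Finset ι → ℝ} (h0 : ∀ S, 0 ≤ l0 S) (h1 : ∀ S, 0 ≤ l1 S)
    (hnu : ∀ S, 0 ≤ nu S) (s : ℕ) : 0 ≤ XX l0 l1 nu s := by
  have hm : ∀ S, 0 ≤ mix l0 l1 S := fun S => by
    unfold mix
    have := h0 S
    have := h1 S
    linarith
  exact It_nonneg (ker_up_nn hnu) (ker_up_nn hm) (Phi_nonneg hnu) s ∅ ∅

/-- the sum of the total errors over the coordinates of the player `w` -/
lemma sum_Xi (hl : ∀ x, Law (lam x)) (hl' : ∀ x, Law (lam' x)) (w : Fin n → Bool)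
    (hcomp : Compat (LM lam w) (LM lam' (opp w))) {c Λ : ℝ} (hc : 0 < c) (hΛ : 0 < Λ)
    (hcΛ : c ^ 2 = 2 * Real.log Λ) (N : ℕ)
    (hs : ∀ s ≤ N + 1, (Fintype.card ι : ℝ) ^ (s + 1) ≤ Λ) :
    ∑ i ∈ univ.filter (fun i => w i = true),
      Xi (LL lam w i false) (LL lam w i true) (LL lam' (opp w) i false) N ≤
      (2 * N + 3) * (2 * Real.sqrt n * c) := by
  unfold Xi
  rw [Finset.sum_add_distrib, ← Finset.mul_sum, Finset.sum_comm]
  have h1 := sum_XX hl hl' w hcomp hc hΛ hcΛ (N + 1) (hs (N + 1) le_rfl)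
  have h2 : ∑ r ∈ range (N + 1), ∑ i ∈ univ.filter (fun i => w i = true),
      XX (LL lam w i false) (LL lam w i true) (LL lam' (opp w) i false) r ≤
      ∑ _r ∈ range (N + 1), 2 * Real.sqrt n * c := by
    refine Finset.sum_le_sum fun r hr => ?_
    have hr' := mem_range.1 hr
    exact sum_XX hl hl' w hcomp hc hΛ hcΛ r (hs r (by omega))
  rw [Finset.sum_const, card_range, nsmul_eq_mul] at h2
  push_cast at h2
  nlinarith

/-- flipping one coordinate of the partition -/
lemma sum_flip (F : (Fin n → Bool) → Fin n → ℝ) (hF : ∀ w i b, F (Function.update w i b) i = F w i)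
    (i : Fin n) : ∑ w, F w i = 2 * ∑ w, if w i = true then F w i else 0 := by
  have e1 : ∑ w : Fin n → Bool, (if w i = true then F w i else 0) =
      ∑ w : Fin n → Bool, (if w i = false then F w i else 0) := by
    refine Finset.sum_nbij' (fun w => Function.update w i (!w i))
      (fun w => Function.update w i (!w i)) (fun _ _ => mem_univ _) (fun _ _ => mem_univ _)
      ?_ ?_ ?_
    · intro w _
      simp
    · intro w _
      simp
    · intro w _
      rw [hF, Function.update_self]
      cases w i <;> simp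
  have e2 : ∀ w : Fin n → Bool, F w i =
      (if w i = true then F w i else 0) + (if w i = false then F w i else 0) := by
    intro w
    cases w i <;> simp
  calc ∑ w, F w i = ∑ w : Fin n → Bool, ((if w i = true then F w i else 0) +
        (if w i = false then F w i else 0)) := Finset.sum_congr rfl fun w _ => e2 w
    _ = 2 * ∑ w : Fin n → Bool, (if w i = true then F w i else 0) := by
      rw [Finset.sum_add_distrib, ← e1]
      ring

lemma opp_opp (w : Fin n → Bool) : opp (opp w) = w := by
  funext k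
  simp [opp]

/-- the total error of the player `w` -/
noncomputable def YY (lam lam' : (Fin n → Bool) → Finset ι → ℝ) (N : ℕ) (w : Fin n → Bool)
    (i : Fin n) : ℝ :=
  Xi (LL lam w i false) (LL lam w i true) (LL lam' (opp w) i false) N

lemma YY_flip (N : ℕ) (w : Fin n → Bool) (i : Fin n) (b : Bool) :
    YY lam lam' N (Function.update w i b) i = YY lam lam' N w i := by
  unfold YY
  rw [opp_flip, LL_flip, LL_flip, LL_flip]

/-- the sum of the total errors over everything -/
lemma sum_YY (hl : ∀ x, Law (lam x)) (hl' : ∀ x, Law (lam' x))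
    (hcomp : ∀ w : Fin n → Bool, Compat (LM lam w) (LM lam' (opp w))) {c Λ : ℝ} (hc : 0 < c)
    (hΛ : 0 < Λ) (hcΛ : c ^ 2 = 2 * Real.log Λ) (N : ℕ)
    (hs : ∀ s ≤ N + 1, (Fintype.card ι : ℝ) ^ (s + 1) ≤ Λ) :
    ∑ w : Fin n → Bool, ∑ i, YY lam lam' N w i ≤
      2 ^ n * (2 * ((2 * N + 3) * (2 * Real.sqrt n * c))) := by
  have e1 : ∑ w : Fin n → Bool, ∑ i, YY lam lam' N w i =
      2 * ∑ w : Fin n → Bool, ∑ i ∈ univ.filter (fun i => w i = true), YY lam lam' N w i := by
    rw [Finset.sum_comm]
    simp_rw [sum_flip (YY lam lam' N) (YY_flip N)]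
    rw [← Finset.mul_sum, Finset.sum_comm]
    simp_rw [Finset.sum_filter]
  rw [e1]
  have e2 : ∑ w : Fin n → Bool, ∑ i ∈ univ.filter (fun i => w i = true), YY lam lam' N w i ≤
      ∑ _w : Fin n → Bool, (2 * N + 3) * (2 * Real.sqrt n * c) :=
    Finset.sum_le_sum fun w _ => sum_Xi hl hl' w (hcomp w) hc hΛ hcΛ N hs
  rw [Finset.sum_const, Finset.card_univ, nsmul_eq_mul] at e2
  have e3 : ((Fintype.card (Fin n → Bool) : ℕ) : ℝ) = 2 ^ n := by
    simp
  rw [e3] at e2
  linarith

/-- **Main inequality.** -/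
theorem main_avg (hl : ∀ x, Law (lam x)) (hl' : ∀ x, Law (lam' x))
    (hcomp : ∀ x y : Fin n → Bool, (¬ ∃ k, x k = true ∧ y k = true) → Compat (lam x) (lam' y))
    (hmeet : ∀ x y : Fin n → Bool, (∃ k, x k = true ∧ y k = true) →
      meet (lam x) (lam' y) ≤ 1 / 2)
    {c Λ : ℝ} (hc : 0 < c) (hΛ : 0 < Λ) (hcΛ : c ^ 2 = 2 * Real.log Λ) (N : ℕ)
    (hs : ∀ s ≤ N + 1, (Fintype.card ι : ℝ) ^ (s + 1) ≤ Λ) :
    (n : ℝ) * (7 / 24 - 2 * ((Fintype.card ι : ℝ) * (1 / 4) ^ N)) ≤
      12 * (2 * N + 3) * Real.sqrt n * c := by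
  -- compatibility of the mixtures
  have hcM : ∀ w : Fin n → Bool, Compat (LM lam w) (LM lam' (opp w)) := by
    intro w
    refine mixL_compat fun x y hx hy => hcomp x y ?_
    rintro ⟨k, h1, h2⟩
    have a1 : rho w k (x k) ≠ 0 := Finset.prod_ne_zero_iff.1 hx k (mem_univ k)
    have a2 : rho (opp w) k (y k) ≠ 0 := Finset.prod_ne_zero_iff.1 hy k (mem_univ k)
    rw [h1] at a1
    rw [h2] at a2
    unfold rho dl at a1
    unfold rho opp dl at a2
    cases hw : w k <;> simp [hw] at a1 a2
  have hcL : ∀ (w : Fin n → Bool) (i : Fin n) (u u' : Bool), ¬ (u = true ∧ u' = true) →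
      Compat (LL lam w i u) (LL lam' (opp w) i u') := fun w i u u' hu =>
    mixL_compat fun x y hx hy => hcomp x y (supp_disj hx hy hu)
  have hmt : ∀ (w : Fin n → Bool) (i : Fin n),
      meet (LL lam w i true) (LL lam' (opp w) i true) ≤ 1 / 2 := by
    intro w i
    unfold LL
    rw [mixL_meet]
    have e1 : ∀ x ∈ (univ : Finset (Fin n → Bool)), ∑ y,
        wt (Function.update (rho w) i (dl true)) x *
          wt (Function.update (rho (opp w)) i (dl true)) y * meet (lam x) (lam' y) ≤
        wt (Function.update (rho w) i (dl true)) x * (1 / 2) := by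
      intro x _
      have hx0 := wt_nonneg (upd_nonneg w i true) x
      have e2 : ∀ y ∈ (univ : Finset (Fin n → Bool)),
          wt (Function.update (rho w) i (dl true)) x *
            wt (Function.update (rho (opp w)) i (dl true)) y * meet (lam x) (lam' y) ≤
          wt (Function.update (rho w) i (dl true)) x *
            (wt (Function.update (rho (opp w)) i (dl true)) y * (1 / 2)) := by
        intro y _
        have hy0 := wt_nonneg (upd_nonneg (opp w) i true) y
        by_cases hx : wt (Function.update (rho w) i (dl true)) x = 0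
        · rw [hx]
          simp
        by_cases hy : wt (Function.update (rho (opp w)) i (dl true)) y = 0
        · rw [hy]
          simp
        have h3 := hmeet x y (supp_meet hx hy)
        rw [mul_assoc]
        exact mul_le_mul_of_nonneg_left (mul_le_mul_of_nonneg_left h3 hy0) hx0
      refine (Finset.sum_le_sum e2).trans (le_of_eq ?_)
      rw [← Finset.mul_sum, ← Finset.sum_mul, sum_wt_one (upd_sum (opp w) i true), one_mul]
    refine (Finset.sum_le_sum e1).trans (le_of_eq ?_)
    rw [← Finset.sum_mul, sum_wt_one (upd_sum w i true), one_mul]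
  -- one coordinate
  have hone : ∀ (w : Fin n → Bool) (i : Fin n),
      7 / 24 - 2 * ((Fintype.card ι : ℝ) * (1 / 4) ^ N) ≤
        2 * YY lam lam' N w i + YY lam' lam N (opp w) i := by
    intro w i
    have h1 := one_coordinate (LL_law hl w i false) (LL_law hl w i true)
      (LL_law hl' (opp w) i false) (LL_law hl' (opp w) i true)
      (hcL w i false false (by simp)) (hcL w i true false (by simp))
      (hcL w i false true (by simp)) (hmt w i) N
    have h2 : 2 * ∑ r ∈ range (N + 1),
        XX (LL lam w i false) (LL lam w i true) (LL lam' (opp w) i false) r ≤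
        YY lam lam' N w i := by
      unfold YY Xi
      have := XX_nonneg (LL_law hl w i false).nonneg (LL_law hl w i true).nonneg
        (LL_law hl' (opp w) i false).nonneg (N + 1)
      linarith
    have h3 : YY lam' lam N (opp w) i =
        Xi (LL lam' (opp w) i false) (LL lam' (opp w) i true) (LL lam w i false) N := by
      unfold YY
      rw [opp_opp]
    have h4 : YY lam lam' N w i =
        Xi (LL lam w i false) (LL lam w i true) (LL lam' (opp w) i false) N := rfl
    rw [h3]
    linarith
  -- sum over everything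
  have hsumA := sum_YY hl hl' hcM hc hΛ hcΛ N hs
  have hcM' : ∀ w : Fin n → Bool, Compat (LM lam' w) (LM lam (opp w)) := by
    intro w
    have h := (hcM (opp w)).symm
    rwa [opp_opp] at h
  have hsumB := sum_YY hl' hl hcM' hc hΛ hcΛ N hs
  have hB : ∑ w : Fin n → Bool, ∑ i, YY lam' lam N (opp w) i =
      ∑ w : Fin n → Bool, ∑ i, YY lam' lam N w i := by
    refine Finset.sum_nbij' opp opp (fun _ _ => mem_univ _) (fun _ _ => mem_univ _)
      (fun w _ => opp_opp w) (fun w _ => opp_opp w) (fun w _ => rfl)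
  have hall : ∑ _w : Fin n → Bool, ∑ _i : Fin n,
      (7 / 24 - 2 * ((Fintype.card ι : ℝ) * (1 / 4) ^ N)) ≤
      ∑ w : Fin n → Bool, ∑ i, (2 * YY lam lam' N w i + YY lam' lam N (opp w) i) :=
    Finset.sum_le_sum fun w _ => Finset.sum_le_sum fun i _ => hone w i
  simp_rw [Finset.sum_add_distrib, ← Finset.mul_sum] at hall
  rw [hB] at hall
  simp only [Finset.sum_const, Finset.card_univ, nsmul_eq_mul, Fintype.card_fin] at hall
  have e3 : ((Fintype.card (Fin n → Bool) : ℕ) : ℝ) = 2 ^ n := by
    simp
  rw [e3] at hall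
  have h2n : (0 : ℝ) < 2 ^ n := by positivity
  have hfin : (2 : ℝ) ^ n * ((n : ℝ) * (7 / 24 - 2 * ((Fintype.card ι : ℝ) * (1 / 4) ^ N))) ≤
      2 ^ n * (12 * (2 * N + 3) * Real.sqrt n * c) := by
    linarith
  exact le_of_mul_le_mul_left hfin h2n

end Z50
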