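import Pool.Agent.Lib.MP_052029_lc.Defs

/-!
The bridge from `Defs.lean` to the random subsets of `Fin P.m`: `SA P x r` is the set of the
rectangles whose Alice side contains `(x, r)`, `SB P y q` the set of those whose Bob side
contains `(y, q)`.
-/

namespace MP052029

open Finset

open Classical in
/-- The rectangles that are open for Alice at the input `x` and the coin `r`. -/
noncomputable def SA {n : ℕ} (P : Protocol n) (x : Fin n → Bool) (r : P.R) : Finset (Fin P.m) :=
  univ.filter (fun i => (x, r) ∈ P.A i)

open Classical in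
/-- The rectangles that are open for Bob at the input `y` and the coin `q`. -/
noncomputable def SB {n : ℕ} (P : Protocol n) (y : Fin n → Bool) (q : P.Q) : Finset (Fin P.m) :=
  univ.filter (fun i => (y, q) ∈ P.B i)

variable {n : ℕ} (P : Protocol n)

theorem mem_SA_inter_SB (x y : Fin n → Bool) (r : P.R) (q : P.Q) (i : Fin P.m) :
    i ∈ SA P x r ∩ SB P y q ↔ P.Hit x y r q i := by
  simp [SA, SB, Protocol.Hit]

theorem SA_inter_SB_nonempty (x y : Fin n → Bool) (r : P.R) (q : P.Q) :
    (SA P x r ∩ SB P y q).Nonempty ↔ ∃ i, P.Hit x y r q i := by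
  constructor
  · rintro ⟨i, hi⟩
    exact ⟨i, (mem_SA_inter_SB P x y r q i).1 hi⟩
  · rintro ⟨i, hi⟩
    exact ⟨i, (mem_SA_inter_SB P x y r q i).2 hi⟩

open Classical in
/-- The acceptance probability as a quotient of two natural numbers. -/
theorem accept_eq_card (x y : Fin n → Bool) :
    P.accept x y =
      ((((univ : Finset P.R) ×ˢ (univ : Finset P.Q)).filter
        (fun z : P.R × P.Q => (SA P x z.1 ∩ SB P y z.2).Nonempty)).card : ℝ) /
        (Fintype.card P.R * Fintype.card P.Q) := by
  unfold Protocol.accept Protocol.avg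
  congr 1
  rw [← Finset.sum_product' (univ : Finset P.R) (univ : Finset P.Q)
    (fun r q => if ∃ i, P.Hit x y r q i then (1 : ℝ) else 0)]
  rw [Finset.sum_ite, Finset.sum_const_zero, add_zero, Finset.sum_const, nsmul_eq_mul, mul_one]
  congr 2
  apply Finset.filter_congr
  intro z _
  exact (SA_inter_SB_nonempty P x y z.1 z.2).symm

theorem cardRQ_pos : (0 : ℝ) < (Fintype.card P.R * Fintype.card P.Q : ℝ) := by
  have h1 : 0 < Fintype.card P.R := Fintype.card_pos
  have h2 : 0 < Fintype.card P.Q := Fintype.card_pos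
  have h1' : (0 : ℝ) < Fintype.card P.R := by exact_mod_cast h1
  have h2' : (0 : ℝ) < Fintype.card P.Q := by exact_mod_cast h2
  exact mul_pos h1' h2'

/-- Every point over a pair of disjoint sets lies in a rectangle. -/
theorem exists_hit (hC : P.Computes) (x y : Fin n → Bool) (hd : Disj x y) (r : P.R) (q : P.Q) :
    ∃ i, P.Hit x y r q i := by
  classical
  have h := (hC x y).1 hd
  rw [accept_eq_card, div_eq_one_iff_eq (cardRQ_pos P).ne'] at h
  have hc : ((((univ : Finset P.R) ×ˢ (univ : Finset P.Q)).filter
        (fun z : P.R × P.Q => (SA P x z.1 ∩ SB P y z.2).Nonempty)).card) =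
        ((univ : Finset P.R) ×ˢ (univ : Finset P.Q)).card := by
    rw [Finset.card_product, Finset.card_univ, Finset.card_univ]
    exact_mod_cast h
  have hall := Finset.card_filter_eq_iff.1 hc
  have := hall (r, q) (by simp)
  exact (SA_inter_SB_nonempty P x y r q).1 this

/-- Over disjoint sets the two random sets of rectangles meet in exactly one point. -/
theorem card_inter_eq_one (hC : P.Computes) (hU : P.Unambiguous) (x y : Fin n → Bool)
    (hd : Disj x y) (r : P.R) (q : P.Q) : (SA P x r ∩ SB P y q).card = 1 := by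
  obtain ⟨i, hi⟩ := exists_hit P hC x y hd r q
  rw [Finset.card_eq_one]
  refine ⟨i, ?_⟩
  ext j
  rw [mem_SA_inter_SB, Finset.mem_singleton]
  constructor
  · intro hj
    exact hU x y hd r q j i hj hi
  · rintro rfl
    exact hi

open Classical in
/-- Over intersecting sets the two random sets of rectangles meet with probability at most `1/2`. -/
theorem two_mul_card_le (hC : P.Computes) (x y : Fin n → Bool) (hd : ¬ Disj x y) :
    2 * (((univ : Finset P.R) ×ˢ (univ : Finset P.Q)).filter
        (fun z : P.R × P.Q => (SA P x z.1 ∩ SB P y z.2).Nonempty)).card ≤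
      Fintype.card P.R * Fintype.card P.Q := by
  have h := (hC x y).2 hd
  rw [accept_eq_card, div_le_iff₀ (cardRQ_pos P)] at h
  have h2 : (2 : ℝ) * ((((univ : Finset P.R) ×ˢ (univ : Finset P.Q)).filter
        (fun z : P.R × P.Q => (SA P x z.1 ∩ SB P y z.2).Nonempty)).card : ℝ) ≤
      (Fintype.card P.R : ℝ) * (Fintype.card P.Q : ℝ) := by linarith
  exact_mod_cast h2

/-- There is at least one rectangle. -/
theorem one_le_m (hC : P.Computes) : 1 ≤ P.m := by
  have hd : Disj (fun _ : Fin n => false) (fun _ : Fin n => false) := by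
    rintro ⟨i, hi, _⟩
    exact Bool.false_ne_true hi
  obtain ⟨r⟩ := P.nonemptyR
  obtain ⟨q⟩ := P.nonemptyQ
  obtain ⟨i, _⟩ := exists_hit P hC _ _ hd r q
  exact Nat.lt_of_le_of_lt (Nat.zero_le _) i.isLt

/-- The number of rectangles is at most `2 ^ cost`. -/
theorem m_le_two_pow_cost : P.m ≤ 2 ^ P.cost := Nat.le_pow_clog (by norm_num) _

/-- The number of rectangles is at most `2 ^ (cost + 1)`. -/
theorem m_le_two_pow_cost_succ : P.m ≤ 2 ^ (P.cost + 1) :=
  (m_le_two_pow_cost P).trans (Nat.pow_le_pow_right (by norm_num) (Nat.le_succ _))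

end MP052029
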