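import Pool.Agent.Lib.MP_052029_lc.U.Op

/-!
After `n` rounds both sides announce the same element, up to probability `m / 4 ^ n`.
-/

set_option autoImplicit false

namespace Z50

open Finset

variable {ι : Type*} [Fintype ι] [DecidableEq ι]

/-- density of the history -/
noncomputable def Dn (p q : Finset ι → ℝ) (J K : Finset ι) : ℝ := up p J * up q K

/-- the candidates for the common element -/
noncomputable def cand (p q : Finset ι → ℝ) (J K : Finset ι) : Finset ι := by
  classical
  exact univ.filter fun i => up p (insert i J) ≠ 0 ∧ up q (insert i K) ≠ 0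

/-- their number -/
noncomputable def Nn (p q : Finset ι → ℝ) (J K : Finset ι) : ℝ := (cand p q J K).card

variable {p q : Finset ι → ℝ}

lemma Dn_nonneg (hp : ∀ S, 0 ≤ p S) (hq : ∀ S, 0 ≤ q S) (J K : Finset ι) : 0 ≤ Dn p q J K :=
  mul_nonneg (up_nonneg hp J) (up_nonneg hq K)

lemma Op_Dn (h : Compat p q) (J K : Finset ι) :
    Op (ker (up q)) (ker (up p)) (Dn p q) J K = Dn p q J K := by
  unfold Dn
  rw [Op_prod, ker_sum h, ker_sum h.symm]
  split_ifs with h1 h2 h2
  · rw [h1]; ring
  · rw [h1]; ring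
  · rw [h2]; ring
  · rfl

lemma It_Dn (h : Compat p q) (n : ℕ) (J K : Finset ι) :
    It (ker (up q)) (ker (up p)) n (Dn p q) J K = Dn p q J K := by
  induction n with
  | zero => rfl
  | succ n ih =>
    have e : Op (ker (up q)) (ker (up p)) (Dn p q) = Dn p q := by
      funext J K
      exact Op_Dn h J K
    rw [It_succ', e, ih]

open Classical in
/-- indicator of a non-zero value -/
noncomputable def nz (x : ℝ) : ℝ := if x = 0 then 0 else 1

lemma nz_nonneg (x : ℝ) : 0 ≤ nz x := by
  unfold nz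
  split_ifs <;> norm_num

lemma nz_le_one (x : ℝ) : nz x ≤ 1 := by
  unfold nz
  split_ifs <;> norm_num

lemma nz_zero : nz 0 = 0 := by simp [nz]

lemma Nn_eq (J K : Finset ι) :
    Nn p q J K = ∑ i, nz (up p (insert i J)) * nz (up q (insert i K)) := by
  classical
  unfold Nn cand nz
  rw [Finset.card_filter]
  push_cast
  refine Finset.sum_congr rfl fun i _ => ?_
  by_cases h1 : up p (insert i J) = 0 <;> by_cases h2 : up q (insert i K) = 0 <;> simp [h1, h2]

/-- conditional probability that the common element is `j` -/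
noncomputable def Pr (p q : Finset ι → ℝ) (J K : Finset ι) (j : ι) : ℝ :=
  up p (insert j J) * up q (insert j K) / (up p J * up q K)

lemma Pr_nonneg (hp : ∀ S, 0 ≤ p S) (hq : ∀ S, 0 ≤ q S) (J K : Finset ι) (j : ι) :
    0 ≤ Pr p q J K j :=
  div_nonneg (mul_nonneg (up_nonneg hp _) (up_nonneg hq _))
    (mul_nonneg (up_nonneg hp _) (up_nonneg hq _))

lemma Pr_sum (h : Compat p q) {J K : Finset ι} (hJ : up p J ≠ 0) (hK : up q K ≠ 0) :
    ∑ j, Pr p q J K j = 1 := by
  unfold Pr
  rw [← Finset.sum_div, ki h, div_self (mul_ne_zero hJ hK)]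

lemma Pr_le_one (hp : ∀ S, 0 ≤ p S) (hq : ∀ S, 0 ≤ q S) (h : Compat p q) {J K : Finset ι}
    (hJ : up p J ≠ 0) (hK : up q K ≠ 0) (j : ι) : Pr p q J K j ≤ 1 := by
  rw [← Pr_sum h hJ hK]
  exact Finset.single_le_sum (fun j _ => Pr_nonneg hp hq J K j) (mem_univ j)

/-- partners of `i` -/
lemma partner_sum (hp : ∀ S, 0 ≤ p S) (hq : ∀ S, 0 ≤ q S) (h : Compat p q) {J K : Finset ι}
    (hJ : up p J ≠ 0) (hK : up q K ≠ 0) (i : ι) :
    (∑ j, Pr p q J K j * nz (up p (insert i (insert j J)))) *
      (∑ k, Pr p q J K k * nz (up q (insert i (insert k K)))) ≤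
      nz (up p (insert i J)) * nz (up q (insert i K)) * ((1 + 3 * Pr p q J K i) / 4) := by
  set s := ∑ j, Pr p q J K j * nz (up p (insert i (insert j J))) with hs
  set t := ∑ k, Pr p q J K k * nz (up q (insert i (insert k K))) with ht
  have hs0 : 0 ≤ s := Finset.sum_nonneg fun j _ => mul_nonneg (Pr_nonneg hp hq _ _ _) (nz_nonneg _)
  have ht0 : 0 ≤ t := Finset.sum_nonneg fun j _ => mul_nonneg (Pr_nonneg hp hq _ _ _) (nz_nonneg _)
  by_cases h1 : up p (insert i J) = 0
  · have hs1 : s = 0 := by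
      rw [hs]
      refine Finset.sum_eq_zero fun j _ => ?_
      have h2 : up p (insert i (insert j J)) = 0 := by
        refine le_antisymm ?_ (up_nonneg hp _)
        rw [← h1]
        exact up_anti hp (insert_subset_insert _ (subset_insert _ _))
      rw [h2, nz_zero, mul_zero]
    rw [hs1, h1, nz_zero]
    simp
  by_cases h2 : up q (insert i K) = 0
  · have ht1 : t = 0 := by
      rw [ht]
      refine Finset.sum_eq_zero fun j _ => ?_
      have h3 : up q (insert i (insert j K)) = 0 := by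
        refine le_antisymm ?_ (up_nonneg hq _)
        rw [← h2]
        exact up_anti hq (insert_subset_insert _ (subset_insert _ _))
      rw [h3, nz_zero, mul_zero]
    rw [ht1, h2, nz_zero]
    simp
  have hst : s + t ≤ 1 + Pr p q J K i := by
    rw [hs, ht, ← Finset.sum_add_distrib]
    have e : ∀ j ∈ univ, Pr p q J K j * nz (up p (insert i (insert j J))) +
        Pr p q J K j * nz (up q (insert i (insert j K))) ≤
        Pr p q J K j + if j = i then Pr p q J K j else 0 := by
      intro j _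
      have hP := Pr_nonneg hp hq J K j
      have n1 := nz_le_one (up p (insert i (insert j J)))
      have n2 := nz_le_one (up q (insert i (insert j K)))
      by_cases hj : j = i
      · rw [if_pos hj]
        nlinarith
      · rw [if_neg hj]
        by_cases h3 : up p (insert i (insert j J)) = 0
        · rw [h3, nz_zero]
          nlinarith
        by_cases h4 : up q (insert i (insert j K)) = 0
        · rw [h4, nz_zero]
          nlinarith
        exact (partners h (Ne.symm hj) h3 h4).elim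
    refine (Finset.sum_le_sum e).trans ?_
    rw [Finset.sum_add_distrib, Pr_sum h hJ hK, Finset.sum_ite_eq']
    simp
  have e1 : nz (up p (insert i J)) = 1 := by simp [nz, h1]
  have e2 : nz (up q (insert i K)) = 1 := by simp [nz, h2]
  rw [e1, e2]
  have hP0 := Pr_nonneg hp hq J K i
  have hP1 := Pr_le_one hp hq h hJ hK i
  nlinarith [sq_nonneg (s - t), mul_nonneg hs0 ht0]

lemma Op_DN (hp : ∀ S, 0 ≤ p S) (hq : ∀ S, 0 ≤ q S) (h : Compat p q) (J K : Finset ι) :
    Op (ker (up q)) (ker (up p)) (fun J K => Dn p q J K * Nn p q J K) J K ≤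
      Dn p q J K * ((Nn p q J K + 3) / 4) := by
  by_cases hJ : up p J = 0
  · have e : Op (ker (up q)) (ker (up p)) (fun J K => Dn p q J K * Nn p q J K) J K = 0 := by
      unfold Op
      refine Finset.sum_eq_zero fun j _ => Finset.sum_eq_zero fun k _ => ?_
      have : up p (insert j J) = 0 := by
        refine le_antisymm ?_ (up_nonneg hp _)
        rw [← hJ]
        exact up_insert_le hp J j
      simp [Dn, this]
    rw [e]
    simp [Dn, hJ]
  by_cases hK : up q K = 0
  · have e : Op (ker (up q)) (ker (up p)) (fun J K => Dn p q J K * Nn p q J K) J K = 0 := by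
      unfold Op
      refine Finset.sum_eq_zero fun j _ => Finset.sum_eq_zero fun k _ => ?_
      have : up q (insert k K) = 0 := by
        refine le_antisymm ?_ (up_nonneg hq _)
        rw [← hK]
        exact up_insert_le hq K k
      simp [Dn, this]
    rw [e]
    simp [Dn, hK]
  have e1 : Op (ker (up q)) (ker (up p)) (fun J K => Dn p q J K * Nn p q J K) J K =
      Dn p q J K * ∑ i, (∑ j, Pr p q J K j * nz (up p (insert i (insert j J)))) *
        (∑ k, Pr p q J K k * nz (up q (insert i (insert k K)))) := by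
    unfold Op
    simp_rw [Finset.sum_mul_sum]
    rw [Finset.mul_sum]
    simp_rw [Nn_eq, Finset.mul_sum]
    conv_rhs => rw [Finset.sum_comm]
    refine Finset.sum_congr rfl fun j _ => ?_
    conv_rhs => rw [Finset.sum_comm]
    refine Finset.sum_congr rfl fun k _ => Finset.sum_congr rfl fun i _ => ?_
    unfold ker Dn Pr
    field_simp
  rw [e1]
  refine mul_le_mul_of_nonneg_left ?_ (Dn_nonneg hp hq J K)
  refine (Finset.sum_le_sum fun i _ => partner_sum hp hq h hJ hK i).trans ?_
  have e2 : ∀ i ∈ univ, nz (up p (insert i J)) * nz (up q (insert i K)) *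
      ((1 + 3 * Pr p q J K i) / 4) ≤
      (nz (up p (insert i J)) * nz (up q (insert i K))) / 4 + 3 / 4 * Pr p q J K i := by
    intro i _
    have hP0 := Pr_nonneg hp hq J K i
    have n1 := nz_nonneg (up p (insert i J))
    have n2 := nz_nonneg (up q (insert i K))
    have n3 := nz_le_one (up p (insert i J))
    have n4 := nz_le_one (up q (insert i K))
    have n5 : nz (up p (insert i J)) * nz (up q (insert i K)) ≤ 1 := by nlinarith
    nlinarith
  refine (Finset.sum_le_sum e2).trans ?_
  rw [Finset.sum_add_distrib, ← Finset.sum_div, ← Nn_eq, ← Finset.mul_sum, Pr_sum h hJ hK]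
  apply le_of_eq
  ring

lemma Op_DN1 (hp : ∀ S, 0 ≤ p S) (hq : ∀ S, 0 ≤ q S) (h : Compat p q) (J K : Finset ι) :
    Op (ker (up q)) (ker (up p)) (fun J K => Dn p q J K * Nn p q J K - Dn p q J K) J K ≤
      1 / 4 * (Dn p q J K * Nn p q J K - Dn p q J K) := by
  rw [Op_sub (fun J K => Dn p q J K * Nn p q J K) (Dn p q)]
  have h1 := Op_DN hp hq h J K
  have h2 := Op_Dn h J K
  rw [h2]
  nlinarith

lemma It_geom {b a : Finset ι → ι → ℝ} (hb : NN b) (ha : NN a) {g : Finset ι → Finset ι → ℝ}
    {c : ℝ} (hc : 0 ≤ c) (hg : ∀ J K, Op b a g J K ≤ c * g J K) (n : ℕ) :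
    ∀ J K : Finset ι, It b a n g J K ≤ c ^ n * g J K := by
  induction n with
  | zero =>
    intro J K
    rw [It_zero, pow_zero, one_mul]
  | succ n ih =>
    intro J K
    rw [It_succ]
    refine (Op_mono hb ha ih J K).trans ?_
    rw [Op_smul, pow_succ, mul_assoc]
    exact mul_le_mul_of_nonneg_left (hg J K) (pow_nonneg hc n)

lemma D_sub_Ev (hp : ∀ S, 0 ≤ p S) (hq : ∀ S, 0 ≤ q S) (h : Compat p q) (J K : Finset ι) :
    Dn p q J K - Ev (ker (up q)) (ker (up p)) (Dn p q) J K ≤
      Dn p q J K * Nn p q J K - Dn p q J K := by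
  by_cases hJ : up p J = 0
  · have e : 0 ≤ Ev (ker (up q)) (ker (up p)) (Dn p q) J K :=
      Ev_nonneg (ker_up_nn hq) (ker_up_nn hp) (Dn_nonneg hp hq) J K
    have e2 : Dn p q J K = 0 := by simp [Dn, hJ]
    rw [e2]
    linarith
  by_cases hK : up q K = 0
  · have e : 0 ≤ Ev (ker (up q)) (ker (up p)) (Dn p q) J K :=
      Ev_nonneg (ker_up_nn hq) (ker_up_nn hp) (Dn_nonneg hp hq) J K
    have e2 : Dn p q J K = 0 := by simp [Dn, hK]
    rw [e2]
    linarith
  have e1 : Ev (ker (up q)) (ker (up p)) (Dn p q) J K =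
      Dn p q J K * ∑ j, Pr p q J K j ^ 2 := by
    unfold Ev
    rw [Finset.mul_sum]
    refine Finset.sum_congr rfl fun j _ => ?_
    unfold ker Dn Pr
    field_simp
  have hsupp : ∑ j ∈ cand p q J K, Pr p q J K j = 1 := by
    rw [← Pr_sum h hJ hK]
    refine Finset.sum_subset (subset_univ _) fun j _ hj => ?_
    unfold cand at hj
    simp only [mem_filter, mem_univ, true_and, not_and_or, not_not] at hj
    unfold Pr
    rcases hj with hj | hj <;> rw [hj] <;> simp
  have hcs := sq_sum_le_card_mul_sum_sq (s := cand p q J K) (f := fun j => Pr p q J K j)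
  rw [hsupp] at hcs
  have hle : ∑ j ∈ cand p q J K, Pr p q J K j ^ 2 ≤ ∑ j, Pr p q J K j ^ 2 :=
    Finset.sum_le_sum_of_subset_of_nonneg (subset_univ _) fun j _ _ => sq_nonneg _
  have hN : Nn p q J K = ((cand p q J K).card : ℝ) := rfl
  rw [← hN] at hcs
  have hN0 : 0 ≤ Nn p q J K := by rw [hN]; positivity
  have hD := Dn_nonneg hp hq J K
  have key : 1 - ∑ j, Pr p q J K j ^ 2 ≤ Nn p q J K - 1 := by
    have h3 : 1 ≤ Nn p q J K * ∑ j, Pr p q J K j ^ 2 := by nlinarith
    have h4 : 0 ≤ ∑ j, Pr p q J K j ^ 2 := Finset.sum_nonneg fun j _ => sq_nonneg _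
    nlinarith [sq_nonneg (Nn p q J K - ∑ j, Pr p q J K j ^ 2)]
  rw [e1]
  nlinarith

theorem collision (hp : Law p) (hq : Law q) (h : Compat p q) (n : ℕ) :
    1 - (Fintype.card ι : ℝ) * (1 / 4) ^ n ≤
      It (ker (up q)) (ker (up p)) n (Ev (ker (up q)) (ker (up p)) (Dn p q)) ∅ ∅ := by
  have hb : NN (ker (up q)) := ker_up_nn hq.nonneg
  have ha : NN (ker (up p)) := ker_up_nn hp.nonneg
  have h1 := It_mono hb ha (D_sub_Ev hp.nonneg hq.nonneg h) n ∅ ∅
  have h2 := It_geom hb ha (by norm_num : (0 : ℝ) ≤ 1 / 4) (Op_DN1 hp.nonneg hq.nonneg h) n ∅ ∅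
  rw [It_sub (Dn p q) (Ev (ker (up q)) (ker (up p)) (Dn p q)), It_Dn h] at h1
  have hD : Dn p q ∅ ∅ = 1 := by
    unfold Dn
    rw [up_empty hp, up_empty hq, mul_one]
  rw [hD] at h1 h2
  have hN : Nn p q ∅ ∅ ≤ (Fintype.card ι : ℝ) := by
    unfold Nn
    exact_mod_cast Finset.card_le_univ _
  have h3 : (1 / 4 : ℝ) ^ n * (1 * Nn p q ∅ ∅ - 1) ≤ (Fintype.card ι : ℝ) * (1 / 4) ^ n := by
    have h4 : (0 : ℝ) ≤ (1 / 4) ^ n := by positivity
    nlinarith
  linarith

end Z50
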