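import Pool.Agent.Lib.MP_052029_lc.Defs

/-!
A zero-information protocol for set disjointness with `4 ^ n` rectangles: the product of `n`
copies of a protocol with four rectangles for the negation of the conjunction of two bits.
-/

set_option autoImplicit false

namespace Z50

open Finset MP052029

/-- Alice's function of the rectangle `(a, b)` -/
def fa (x : Bool) (g : Bool × Bool) : Bool := if x then xor g.1 g.2 else g.1

/-- Bob's function of the rectangle `(a, b)` -/
def fb (y : Bool) (g : Bool × Bool) : Bool := if y then xor g.1 g.2 else g.2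

/-- the rectangle that contains the point -/
def gg (x y r q : Bool) : Bool × Bool :=
  if x then (xor r q, q) else if y then (r, xor r q) else (r, q)

lemma gg_spec : ∀ x y r q : Bool, ¬ (x = true ∧ y = true) →
    fa x (gg x y r q) = r ∧ fb y (gg x y r q) = q := by decide

lemma gg_unique : ∀ (x y : Bool) (g g' : Bool × Bool), ¬ (x = true ∧ y = true) →
    fa x g = fa x g' → fb y g = fb y g' → g = g' := by decide

lemma fa_fb : ∀ g : Bool × Bool, fa true g = fb true g := by decide

variable (n : ℕ)

/-- the product protocol -/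
noncomputable def PP : Protocol n where
  R := Fin n → Bool
  Q := Fin n → Bool
  m := Fintype.card (Fin n → Bool × Bool)
  A i := {p | ∀ k, fa (p.1 k) ((Fintype.equivFin (Fin n → Bool × Bool)).symm i k) = p.2 k}
  B i := {p | ∀ k, fb (p.1 k) ((Fintype.equivFin (Fin n → Bool × Bool)).symm i k) = p.2 k}

variable {n}

/-- the rectangle as a function -/
noncomputable def nm (i : Fin (PP n).m) : Fin n → Bool × Bool :=
  (Fintype.equivFin (Fin n → Bool × Bool)).symm i

lemma nm_inj {i j : Fin (PP n).m} (h : nm i = nm j) : i = j :=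
  (Fintype.equivFin (Fin n → Bool × Bool)).symm.injective h

lemma nm_surj (g : Fin n → Bool × Bool) : ∃ i : Fin (PP n).m, nm i = g :=
  (Fintype.equivFin (Fin n → Bool × Bool)).symm.surjective g

lemma hit_iff (x y : Fin n → Bool) (r q : Fin n → Bool) (i : Fin (PP n).m) :
    (PP n).Hit x y r q i ↔
      (r = fun k => fa (x k) (nm i k)) ∧ q = fun k => fb (y k) (nm i k) := by
  constructor
  · rintro ⟨h1, h2⟩
    exact ⟨funext fun k => (h1 k).symm, funext fun k => (h2 k).symm⟩
  · rintro ⟨rfl, rfl⟩
    exact ⟨fun k => rfl, fun k => rfl⟩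

lemma exists_hit' {x y : Fin n → Bool} (hd : Disj x y) (r q : Fin n → Bool) :
    ∃ i, (PP n).Hit x y r q i := by
  obtain ⟨i, hi⟩ := nm_surj fun k => gg (x k) (y k) (r k) (q k)
  refine ⟨i, (hit_iff x y r q i).2 ⟨funext fun k => ?_, funext fun k => ?_⟩⟩
  · rw [hi]
    exact (gg_spec _ _ _ _ fun h => hd ⟨k, h⟩).1.symm
  · rw [hi]
    exact (gg_spec _ _ _ _ fun h => hd ⟨k, h⟩).2.symm

lemma sum_bit (k : Fin n) (b : Bool) :
    ∑ q : Fin n → Bool, (if b = q k then (1 : ℝ) else 0) =
      (Fintype.card (Fin n → Bool) : ℝ) / 2 := by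
  have e1 : ∑ q : Fin n → Bool, (if b = q k then (1 : ℝ) else 0) =
      ∑ q : Fin n → Bool, (if b = !q k then (1 : ℝ) else 0) := by
    refine Finset.sum_nbij' (fun w => Function.update w k (!w k))
      (fun w => Function.update w k (!w k)) (fun _ _ => mem_univ _) (fun _ _ => mem_univ _)
      ?_ ?_ ?_
    · intro w _
      simp
    · intro w _
      simp
    · intro w _
      simp
  have e2 : ∑ q : Fin n → Bool, (if b = q k then (1 : ℝ) else 0) +
      ∑ q : Fin n → Bool, (if b = !q k then (1 : ℝ) else 0) =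
      (Fintype.card (Fin n → Bool) : ℝ) := by
    rw [← Finset.sum_add_distrib]
    have e3 : ∀ q : Fin n → Bool, (if b = q k then (1 : ℝ) else 0) +
        (if b = !q k then (1 : ℝ) else 0) = 1 := by
      intro q
      cases b <;> cases q k <;> simp
    simp_rw [e3]
    simp
  linarith

lemma card_pos_cube : (0 : ℝ) < Fintype.card (Fin n → Bool) := by
  exact_mod_cast Fintype.card_pos

theorem PP_computes : (PP n).Computes := by
  classical
  have hc := card_pos_cube (n := n)
  intro x y
  refine ⟨fun hd => ?_, fun hd => ?_⟩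
  · have e : (PP n).accept x y = (PP n).avg fun _ _ => 1 := by
      unfold Protocol.accept
      congr 1
      funext r q
      exact if_pos (exists_hit' hd r q)
    rw [e]
    change (∑ _r : Fin n → Bool, ∑ _q : Fin n → Bool, (1 : ℝ)) /
      ((Fintype.card (Fin n → Bool) : ℝ) * (Fintype.card (Fin n → Bool) : ℝ)) = 1
    rw [Finset.sum_const, Finset.sum_const, Finset.card_univ]
    simp only [nsmul_eq_mul, mul_one]
    exact div_self (mul_pos hc hc).ne'
  · have hex : ∃ k, x k = true ∧ y k = true := by
      by_contra h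
      exact hd h
    obtain ⟨k, hk1, hk2⟩ := hex
    change (∑ r : Fin n → Bool, ∑ q : Fin n → Bool,
      (if ∃ i, (PP n).Hit x y r q i then (1 : ℝ) else 0)) /
      ((Fintype.card (Fin n → Bool) : ℝ) * (Fintype.card (Fin n → Bool) : ℝ)) ≤ 1 / 2
    rw [div_le_iff₀ (mul_pos hc hc)]
    have h1 : ∀ r ∈ (univ : Finset (Fin n → Bool)), ∑ q : Fin n → Bool,
        (if ∃ i, (PP n).Hit x y r q i then (1 : ℝ) else 0) ≤
        (Fintype.card (Fin n → Bool) : ℝ) / 2 := by
      intro r _
      rw [← sum_bit k (r k)]
      refine Finset.sum_le_sum fun q _ => ?_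
      by_cases h : ∃ i, (PP n).Hit x y r q i
      · obtain ⟨i, hi⟩ := h
        have h2 := (hit_iff x y r q i).1 hi
        have h3 : r k = q k := by
          rw [h2.1, h2.2]
          simp only [hk1, hk2]
          exact fa_fb _
        rw [if_pos ⟨i, hi⟩, if_pos h3]
      · rw [if_neg h]
        split_ifs <;> norm_num
    refine (Finset.sum_le_sum h1).trans (le_of_eq ?_)
    rw [Finset.sum_const, Finset.card_univ, nsmul_eq_mul]
    ring

lemma PP_unambiguous : (PP n).Unambiguous := by
  intro x y hd r q i j hi hj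
  have h1 := (hit_iff x y r q i).1 hi
  have h2 := (hit_iff x y r q j).1 hj
  refine nm_inj (funext fun k => ?_)
  refine gg_unique (x k) (y k) _ _ (fun h => hd ⟨k, h⟩) ?_ ?_
  · exact congrFun (h1.1.symm.trans h2.1) k
  · exact congrFun (h1.2.symm.trans h2.2) k

lemma PP_hitProb (x y : Fin n → Bool) (i : Fin (PP n).m) :
    (PP n).hitProb x y i =
      1 / ((Fintype.card (Fin n → Bool) : ℝ) * (Fintype.card (Fin n → Bool) : ℝ)) := by
  classical
  change (∑ r : Fin n → Bool, ∑ q : Fin n → Bool,
      (if (PP n).Hit x y r q i then (1 : ℝ) else 0)) /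
      ((Fintype.card (Fin n → Bool) : ℝ) * (Fintype.card (Fin n → Bool) : ℝ)) = _
  congr 1
  have e : ∀ r q : Fin n → Bool, (if (PP n).Hit x y r q i then (1 : ℝ) else 0) =
      if r = (fun k => fa (x k) (nm i k)) then
        (if q = (fun k => fb (y k) (nm i k)) then 1 else 0) else 0 := by
    intro r q
    by_cases h1 : r = (fun k => fa (x k) (nm i k))
    · by_cases h2 : q = (fun k => fb (y k) (nm i k))
      · rw [if_pos ((hit_iff x y r q i).2 ⟨h1, h2⟩), if_pos h1, if_pos h2]
      · rw [if_neg (fun h => h2 ((hit_iff x y r q i).1 h).2), if_pos h1, if_neg h2]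
    · rw [if_neg (fun h => h1 ((hit_iff x y r q i).1 h).1), if_neg h1]
  simp_rw [e]
  rw [Finset.sum_comm]
  simp

theorem PP_zero : (PP n).ZeroInformation :=
  ⟨PP_unambiguous, fun i x y x' y' _ _ => by rw [PP_hitProb, PP_hitProb]⟩

theorem PP_cost : (PP n).cost = 2 * n := by
  have e : (PP n).m = 2 ^ (2 * n) := by
    change Fintype.card (Fin n → Bool × Bool) = 2 ^ (2 * n)
    rw [Fintype.card_fun, Fintype.card_fin, Fintype.card_prod, Fintype.card_bool, pow_mul]
    norm_num
  unfold Protocol.cost
  rw [e]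
  exact Nat.clog_pow 2 (2 * n) (by norm_num)

end Z50
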