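import Pool.Agent.Lib.MP_052029_lc.U.Coll

/-!
Comparison of the processes with the weights of the mixture and with the weights of `l0`.
-/

set_option autoImplicit false

namespace Z50

open Finset

variable {ι : Type*} [Fintype ι] [DecidableEq ι]

/-! ### General kernels -/

section general

variable {b a a' : Finset ι → ι → ℝ}

/-- absolute difference of two kernels -/
noncomputable def del (a a' : Finset ι → ι → ℝ) (J : Finset ι) (k : ι) : ℝ := |a J k - a' J k|

omit [Fintype ι] [DecidableEq ι] in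
lemma del_nn (a a' : Finset ι → ι → ℝ) : NN (del a a') := fun _ _ => abs_nonneg _

lemma Op_le_add_del (hb : NN b) {u : Finset ι → Finset ι → ℝ} (hu : ∀ J K, 0 ≤ u J K)
    (J K : Finset ι) : Op b a' u J K ≤ Op b a u J K + Op b (del a a') u J K := by
  unfold Op
  rw [← Finset.sum_add_distrib]
  refine Finset.sum_le_sum fun j _ => ?_
  rw [← Finset.sum_add_distrib]
  refine Finset.sum_le_sum fun k _ => ?_
  have h1 : a' J k ≤ a J k + del a a' J k := by
    unfold del
    have := neg_abs_le (a J k - a' J k)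
    linarith
  have h2 := hb K j
  have h3 := hu (insert j J) (insert k K)
  have h4 : b K j * a' J k * u (insert j J) (insert k K) ≤
      b K j * (a J k + del a a' J k) * u (insert j J) (insert k K) :=
    mul_le_mul_of_nonneg_right (mul_le_mul_of_nonneg_left h1 h2) h3
  linarith [h4]

lemma Op_le_add_del' (hb : NN b) {u : Finset ι → Finset ι → ℝ} (hu : ∀ J K, 0 ≤ u J K)
    (J K : Finset ι) : Op b a u J K ≤ Op b a' u J K + Op b (del a a') u J K := by
  have h := Op_le_add_del (a := a') (a' := a) hb hu J K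
  have e : del a' a = del a a' := by
    funext J k
    unfold del
    rw [abs_sub_comm]
  rwa [e] at h

lemma Ev_le_add_del (hb : NN b) {u : Finset ι → Finset ι → ℝ} (hu : ∀ J K, 0 ≤ u J K)
    (J K : Finset ι) : Ev b a u J K ≤ Ev b a' u J K + Op b (del a a') u J K := by
  have h1 : Ev b a u J K ≤ Ev b a' u J K + Ev b (del a a') u J K := by
    unfold Ev
    rw [← Finset.sum_add_distrib]
    refine Finset.sum_le_sum fun j _ => ?_
    have h1 : a J j ≤ a' J j + del a a' J j := by
      unfold del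
      have := le_abs_self (a J j - a' J j)
      linarith
    have h4 : b K j * a J j * u (insert j J) (insert j K) ≤
        b K j * (a' J j + del a a' J j) * u (insert j J) (insert j K) :=
      mul_le_mul_of_nonneg_right (mul_le_mul_of_nonneg_left h1 (hb K j)) (hu _ _)
    linarith [h4]
  have h2 := Ev_le_Op hb (del_nn a a') hu J K
  linarith

/-- error of `n` rounds -/
noncomputable def Er (b a : Finset ι → ι → ℝ) (f : Finset ι → Finset ι → ℝ) (n : ℕ)
    (J K : Finset ι) : ℝ := ∑ r ∈ range n, It b a r f J K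

lemma Er_succ (f : Finset ι → Finset ι → ℝ) (n : ℕ) (J K : Finset ι) :
    Op b a (Er b a f n) J K + f J K = Er b a f (n + 1) J K := by
  unfold Er
  rw [Finset.sum_range_succ']
  have e : Op b a (fun J K => ∑ r ∈ range n, It b a r f J K) J K =
      ∑ r ∈ range n, It b a (r + 1) f J K := by
    have h := It_sum (b := b) (a := a) (range n) (fun r => It b a r f) 1 J K
    simp only [It_succ, It_zero] at h
    rw [h]
    refine Finset.sum_congr rfl fun r _ => ?_
    rw [It_succ]
  have e2 : (Er b a f n) = fun J K => ∑ r ∈ range n, It b a r f J K := rfl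
  rw [← e]
  rfl

lemma Er_mono (hb : NN b) (ha : NN a) {f g : Finset ι → Finset ι → ℝ}
    (h : ∀ J K, f J K ≤ g J K) (n : ℕ) (J K : Finset ι) : Er b a f n J K ≤ Er b a g n J K :=
  Finset.sum_le_sum fun r _ => It_mono hb ha h r J K

variable {g h : Finset ι → Finset ι → ℝ}

lemma It_le_super (hb : NN b) (ha : NN a) (hgh : ∀ J K, g J K ≤ h J K)
    (hh : ∀ J K, Op b a h J K ≤ h J K) (n : ℕ) (J K : Finset ι) : It b a n g J K ≤ h J K :=
  (It_mono hb ha hgh n J K).trans (It_super hb ha hh n J K)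

/-- one direction of the comparison -/
lemma hyb1 (hb : NN b) (ha : NN a) (ha' : NN a') (hg : ∀ J K, 0 ≤ g J K)
    (hgh : ∀ J K, g J K ≤ h J K) (hh : ∀ J K, Op b a' h J K ≤ h J K) (n : ℕ) :
    ∀ J K : Finset ι,
      It b a' n g J K ≤ It b a n g J K + Er b a (Op b (del a a') h) n J K := by
  induction n with
  | zero =>
    intro J K
    simp [It_zero, Er]
  | succ n ih =>
    intro J K
    rw [It_succ, It_succ, ← Er_succ]
    have h1 := Op_le_add_del (a := a) (a' := a') hb (It_nonneg hb ha' hg n) J K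
    have h2 := Op_mono hb (del_nn a a') (It_le_super hb ha' hgh hh n) J K
    have h3 := Op_mono hb ha ih J K
    rw [Op_add] at h3
    linarith

/-- the other direction -/
lemma hyb2 (hb : NN b) (ha : NN a) (ha' : NN a') (hg : ∀ J K, 0 ≤ g J K)
    (hgh : ∀ J K, g J K ≤ h J K) (hh : ∀ J K, Op b a' h J K ≤ h J K) (n : ℕ) :
    ∀ J K : Finset ι,
      It b a n g J K ≤ It b a' n g J K + Er b a (Op b (del a a') h) n J K := by
  induction n with
  | zero =>
    intro J K
    simp [It_zero, Er]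
  | succ n ih =>
    intro J K
    rw [It_succ, It_succ, ← Er_succ]
    have h1 := Op_le_add_del' (a := a) (a' := a') hb (It_nonneg hb ha' hg n) J K
    have h2 := Op_mono hb (del_nn a a') (It_le_super hb ha' hgh hh n) J K
    have h3 := Op_mono hb ha ih J K
    rw [Op_add] at h3
    linarith

lemma hyb3 (hb : NN b) (ha : NN a) (ha' : NN a') (hg : ∀ J K, 0 ≤ g J K)
    (hgh : ∀ J K, g J K ≤ h J K) (hh : ∀ J K, Op b a' h J K ≤ h J K) (n : ℕ) (J K : Finset ι) :
    It b a n (Ev b a g) J K ≤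
      It b a' n (Ev b a' g) J K + Er b a (Op b (del a a') h) (n + 1) J K := by
  have h1 : ∀ J K, Ev b a g J K ≤ Ev b a' g J K + Op b (del a a') h J K := by
    intro J K
    have e1 := Ev_le_add_del (a := a) (a' := a') hb hg J K
    have e2 := Op_mono hb (del_nn a a') hgh J K
    linarith
  have h2 := It_mono hb ha h1 n J K
  rw [It_add] at h2
  have h3 : ∀ J K, Ev b a' g J K ≤ h J K := fun J K =>
    (Ev_le_Op hb ha' hg J K).trans ((Op_mono hb ha' hgh J K).trans (hh J K))
  have h4 := hyb2 (a := a) (a' := a') (g := Ev b a' g) (h := h) hb ha ha'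
    (Ev_nonneg hb ha' hg) h3 hh n J K
  have h5 : Er b a (Op b (del a a') h) (n + 1) J K =
      Er b a (Op b (del a a') h) n J K + It b a n (Op b (del a a') h) J K := by
    unfold Er
    rw [Finset.sum_range_succ]
  rw [h5]
  linarith

end general

/-! ### One coordinate -/

/-- the distance of `l0` and `l1` seen at the common element -/
noncomputable def Phi (l0 l1 nu : Finset ι → ℝ) (J K : Finset ι) : ℝ :=
  ∑ k, up nu (insert k K) * |up l1 (insert k J) - up l0 (insert k J)|

/-- ... after `s` rounds of the process of the mixture -/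
noncomputable def XX (l0 l1 nu : Finset ι → ℝ) (s : ℕ) : ℝ :=
  It (ker (up nu)) (ker (up (mix l0 l1))) s (Phi l0 l1 nu) ∅ ∅

variable {l0 l1 nu : Finset ι → ℝ}

lemma Phi_nonneg (hnu : ∀ S, 0 ≤ nu S) (J K : Finset ι) : 0 ≤ Phi l0 l1 nu J K :=
  Finset.sum_nonneg fun _ _ => mul_nonneg (up_nonneg hnu _) (abs_nonneg _)

lemma le_Phi (hnu : ∀ S, 0 ≤ nu S) (c0 : Compat l0 nu) (c1 : Compat l1 nu) (J K : Finset ι) :
    |up l1 J - up l0 J| * up nu K ≤ Phi l0 l1 nu J K := by
  have h0 := ki c0 J K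
  have h1 := ki c1 J K
  have hG := up_nonneg hnu K
  rw [← abs_of_nonneg hG, ← abs_mul, sub_mul, ← h0, ← h1, ← Finset.sum_sub_distrib]
  refine (Finset.abs_sum_le_sum_abs _ _).trans ?_
  unfold Phi
  refine Finset.sum_le_sum fun k _ => ?_
  rw [← sub_mul, abs_mul, abs_of_nonneg (up_nonneg hnu (insert k K)), mul_comm]

lemma ker_diff (h0 : ∀ S, 0 ≤ l0 S) (h1 : ∀ S, 0 ≤ l1 S) (J : Finset ι) (k : ι) :
    (up l0 J + up l1 J) * del (ker (up (mix l0 l1))) (ker (up l0)) J k ≤
      |up l1 (insert k J) - up l0 (insert k J)| +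
        |up l1 J - up l0 J| * ker (up l0) J k := by
  have hF0 := up_nonneg h0 J
  have hF1 := up_nonneg h1 J
  have hk0 : 0 ≤ ker (up l0) J k := ker_up_nn h0 J k
  rcases (add_nonneg hF0 hF1).eq_or_lt with hz | hz
  · rw [← hz, zero_mul]
    positivity
  have hsum : (up l0 J + up l1 J) * del (ker (up (mix l0 l1))) (ker (up l0)) J k =
      |(up l0 (insert k J) + up l1 (insert k J)) - (up l0 J + up l1 J) * ker (up l0) J k| := by
    unfold del
    rw [← abs_of_pos hz, ← abs_mul, abs_of_pos hz]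
    congr 1
    rw [mul_sub]
    congr 1
    unfold ker
    rw [up_mix, up_mix]
    field_simp
  rw [hsum]
  by_cases hz0 : up l0 J = 0
  · have e0 : up l0 (insert k J) = 0 := by
      refine le_antisymm ?_ (up_nonneg h0 _)
      rw [← hz0]
      exact up_insert_le h0 J k
    have e1 : ker (up l0) J k = 0 := by
      unfold ker
      rw [e0, zero_div]
    rw [e0, e1]
    simp
  · have e1 : up l0 J * ker (up l0) J k = up l0 (insert k J) := by
      unfold ker
      field_simp
    have e2 : (up l0 (insert k J) + up l1 (insert k J)) -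
        (up l0 J + up l1 J) * ker (up l0) J k =
        (up l1 (insert k J) - up l0 (insert k J)) + (up l0 J - up l1 J) * ker (up l0) J k := by
      rw [add_mul, sub_mul, e1]
      ring
    rw [e2]
    refine (abs_add_le _ _).trans ?_
    rw [abs_mul, abs_of_nonneg hk0, abs_sub_comm (up l0 J)]

lemma Op_del_le (h0 : ∀ S, 0 ≤ l0 S) (h1 : ∀ S, 0 ≤ l1 S) (hnu : ∀ S, 0 ≤ nu S)
    (c0 : Compat l0 nu) (c1 : Compat l1 nu) (J K : Finset ι) :
    Op (ker (up nu)) (del (ker (up (mix l0 l1))) (ker (up l0)))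
      (fun J K => (up l0 J + up l1 J) * up nu K) J K ≤ 2 * Phi l0 l1 nu J K := by
  rw [Op_prod]
  have e1 : ∑ j, ker (up nu) K j * (up l0 (insert j J) + up l1 (insert j J)) ≤
      up l0 J + up l1 J := by
    simp_rw [mul_add, Finset.sum_add_distrib]
    exact add_le_add (ker_sum_le h0 c0 J K) (ker_sum_le h1 c1 J K)
  have e2 : 0 ≤ ∑ k, del (ker (up (mix l0 l1))) (ker (up l0)) J k * up nu (insert k K) :=
    Finset.sum_nonneg fun k _ => mul_nonneg (del_nn _ _ _ _) (up_nonneg hnu _)
  refine (mul_le_mul_of_nonneg_right e1 e2).trans ?_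
  rw [Finset.mul_sum]
  have e3 : ∀ k ∈ univ, (up l0 J + up l1 J) *
      (del (ker (up (mix l0 l1))) (ker (up l0)) J k * up nu (insert k K)) ≤
      up nu (insert k K) * |up l1 (insert k J) - up l0 (insert k J)| +
        |up l1 J - up l0 J| * (ker (up l0) J k * up nu (insert k K)) := by
    intro k _
    have := mul_le_mul_of_nonneg_right (ker_diff h0 h1 J k) (up_nonneg hnu (insert k K))
    linarith [this]
  refine (Finset.sum_le_sum e3).trans ?_
  rw [Finset.sum_add_distrib, ← Finset.mul_sum]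
  have e4 := ker_sum_le hnu c0.symm K J
  have e5 := le_Phi hnu c0 c1 J K
  have e6 := mul_le_mul_of_nonneg_left e4 (abs_nonneg (up l1 J - up l0 J))
  have e7 : ∑ k, up nu (insert k K) * |up l1 (insert k J) - up l0 (insert k J)| =
      Phi l0 l1 nu J K := rfl
  rw [e7]
  linarith

/-- the total error -/
noncomputable def Xi (l0 l1 nu : Finset ι → ℝ) (n : ℕ) : ℝ :=
  XX l0 l1 nu (n + 1) + 2 * ∑ r ∈ range (n + 1), XX l0 l1 nu r

lemma Er_le (h0 : ∀ S, 0 ≤ l0 S) (h1 : ∀ S, 0 ≤ l1 S) (hnu : ∀ S, 0 ≤ nu S)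
    (c0 : Compat l0 nu) (c1 : Compat l1 nu) (n : ℕ) :
    Er (ker (up nu)) (ker (up (mix l0 l1)))
      (Op (ker (up nu)) (del (ker (up (mix l0 l1))) (ker (up l0)))
        (fun J K => (up l0 J + up l1 J) * up nu K)) n ∅ ∅ ≤
      2 * ∑ r ∈ range n, XX l0 l1 nu r := by
  have hm : ∀ S, 0 ≤ mix l0 l1 S := fun S => by
    unfold mix
    have := h0 S
    have := h1 S
    linarith
  refine (Er_mono (ker_up_nn hnu) (ker_up_nn hm)
    (Op_del_le h0 h1 hnu c0 c1) n ∅ ∅).trans ?_
  unfold Er XX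
  rw [Finset.mul_sum]
  refine Finset.sum_le_sum fun r _ => ?_
  rw [It_smul]

lemma super0 (h0 : ∀ S, 0 ≤ l0 S) (h1 : ∀ S, 0 ≤ l1 S) (hnu : ∀ S, 0 ≤ nu S)
    (c0 : Compat l0 nu) (c1 : Compat l1 nu) (J K : Finset ι) :
    Op (ker (up nu)) (ker (up l0)) (fun J K => (up l0 J + up l1 J) * up nu K) J K ≤
      (up l0 J + up l1 J) * up nu K := by
  simp_rw [add_mul]
  rw [Op_add (fun J K => up l0 J * up nu K) (fun J K => up l1 J * up nu K)]
  exact add_le_add (Op_super h0 hnu h0 c0 c0 J K) (Op_super h1 hnu h0 c1 c0 J K)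

/-- the process with the weights of `l0` ends with the same announcement, probability -/
theorem same_announce (h0 : Law l0) (h1 : Law l1) (hnu : Law nu)
    (c0 : Compat l0 nu) (c1 : Compat l1 nu) (n : ℕ) :
    1 - 2 * ((Fintype.card ι : ℝ) * (1 / 4) ^ n) - 2 * ∑ r ∈ range (n + 1), XX l0 l1 nu r ≤
      It (ker (up nu)) (ker (up l0)) n
        (Ev (ker (up nu)) (ker (up l0)) (fun J K => up l0 J * up nu K)) ∅ ∅ := by
  have hm : Law (mix l0 l1) := h0.mix h1
  have cm : Compat (mix l0 l1) nu := c0.mix_left c1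
  have hb : NN (ker (up nu)) := ker_up_nn hnu.nonneg
  have ha : NN (ker (up (mix l0 l1))) := ker_up_nn hm.nonneg
  have ha' : NN (ker (up l0)) := ker_up_nn h0.nonneg
  have hg : ∀ J K : Finset ι, 0 ≤ up l0 J * up nu K := fun J K =>
    mul_nonneg (up_nonneg h0.nonneg J) (up_nonneg hnu.nonneg K)
  have hg1 : ∀ J K : Finset ι, 0 ≤ up l1 J * up nu K := fun J K =>
    mul_nonneg (up_nonneg h1.nonneg J) (up_nonneg hnu.nonneg K)
  have hgh : ∀ J K : Finset ι, up l0 J * up nu K ≤ (up l0 J + up l1 J) * up nu K := by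
    intro J K
    have := hg1 J K
    linarith
  have key := hyb3 (a := ker (up (mix l0 l1))) (a' := ker (up l0)) hb ha ha' hg hgh
    (super0 h0.nonneg h1.nonneg hnu.nonneg c0 c1) n ∅ ∅
  have hEr := Er_le h0.nonneg h1.nonneg hnu.nonneg c0 c1 (n + 1)
  have hcol := collision hm hnu cm n
  -- `F0 = 2 FA - F1`
  have hsplit : It (ker (up nu)) (ker (up (mix l0 l1))) n
        (Ev (ker (up nu)) (ker (up (mix l0 l1))) (fun J K => up l0 J * up nu K)) ∅ ∅ +
      It (ker (up nu)) (ker (up (mix l0 l1))) n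
        (Ev (ker (up nu)) (ker (up (mix l0 l1))) (fun J K => up l1 J * up nu K)) ∅ ∅ =
      2 * It (ker (up nu)) (ker (up (mix l0 l1))) n
        (Ev (ker (up nu)) (ker (up (mix l0 l1))) (Dn (mix l0 l1) nu)) ∅ ∅ := by
    rw [← It_add, ← It_smul]
    congr 1
    funext J K
    rw [← Ev_add, ← Ev_smul]
    congr 1
    funext J K
    unfold Dn
    rw [up_mix]
    ring
  have hle1 : It (ker (up nu)) (ker (up (mix l0 l1))) n
      (Ev (ker (up nu)) (ker (up (mix l0 l1))) (fun J K => up l1 J * up nu K)) ∅ ∅ ≤ 1 := by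
    have hs : ∀ J K : Finset ι, Op (ker (up nu)) (ker (up (mix l0 l1)))
        (fun J K => up l1 J * up nu K) J K ≤ up l1 J * up nu K :=
      Op_super h1.nonneg hnu.nonneg hm.nonneg c1 cm
    have h2 : ∀ J K : Finset ι, Ev (ker (up nu)) (ker (up (mix l0 l1)))
        (fun J K => up l1 J * up nu K) J K ≤ up l1 J * up nu K := fun J K =>
      (Ev_le_Op hb ha hg1 J K).trans (hs J K)
    have h3 := It_le_super hb ha h2 hs n ∅ ∅
    rw [up_empty h1, up_empty hnu, mul_one] at h3
    exact h3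
  linarith

/-- the transcript hardly notices the difference of `l0` and `l1` -/
theorem unnoticed (h0 : Law l0) (h1 : Law l1) (hnu : Law nu)
    (c0 : Compat l0 nu) (c1 : Compat l1 nu) (n : ℕ) :
    It (ker (up nu)) (ker (up l0)) (n + 1) (fun J K => |up l1 J - up l0 J| * up nu K) ∅ ∅ ≤
      Xi l0 l1 nu n := by
  have hm : Law (mix l0 l1) := h0.mix h1
  have hb : NN (ker (up nu)) := ker_up_nn hnu.nonneg
  have ha : NN (ker (up (mix l0 l1))) := ker_up_nn hm.nonneg
  have ha' : NN (ker (up l0)) := ker_up_nn h0.nonneg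
  have hg : ∀ J K : Finset ι, 0 ≤ |up l1 J - up l0 J| * up nu K := fun J K =>
    mul_nonneg (abs_nonneg _) (up_nonneg hnu.nonneg K)
  have hgh : ∀ J K : Finset ι, |up l1 J - up l0 J| * up nu K ≤
      (up l0 J + up l1 J) * up nu K := by
    intro J K
    refine mul_le_mul_of_nonneg_right ?_ (up_nonneg hnu.nonneg K)
    have e0 := up_nonneg h0.nonneg J
    have e1 := up_nonneg h1.nonneg J
    rw [abs_le]
    constructor <;> linarith
  have key := hyb1 (a := ker (up (mix l0 l1))) (a' := ker (up l0)) hb ha ha' hg hgh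
    (super0 h0.nonneg h1.nonneg hnu.nonneg c0 c1) (n + 1) ∅ ∅
  have hEr := Er_le h0.nonneg h1.nonneg hnu.nonneg c0 c1 (n + 1)
  have h2 := It_mono hb ha (le_Phi hnu.nonneg c0 c1) (n + 1) ∅ ∅
  unfold Xi
  have h3 : It (ker (up nu)) (ker (up (mix l0 l1))) (n + 1) (Phi l0 l1 nu) ∅ ∅ =
      XX l0 l1 nu (n + 1) := rfl
  rw [h3] at h2
  linarith

end Z50
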