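import Mathlib

/-!
Random finite sets, given by their laws, and the identity for compatible laws.
-/

set_option autoImplicit false

namespace Z50

open Finset

variable {ι : Type*} [Fintype ι] [DecidableEq ι]

/-- probability that a random set with law `p` contains `J` -/
noncomputable def up (p : Finset ι → ℝ) (J : Finset ι) : ℝ :=
  ∑ S : Finset ι, if J ⊆ S then p S else 0

/-- a probability law on the finite sets -/
structure Law (p : Finset ι → ℝ) : Prop where
  nonneg : ∀ S, 0 ≤ p S
  total : ∑ S, p S = 1

/-- every set in the support of `p` meets every set in the support of `q` in one point -/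
def Compat (p q : Finset ι → ℝ) : Prop :=
  ∀ S T, p S ≠ 0 → q T ≠ 0 → (S ∩ T).card = 1

lemma Compat.symm {p q : Finset ι → ℝ} (h : Compat p q) : Compat q p :=
  fun S T hS hT => by rw [inter_comm]; exact h T S hT hS

/-- the mixture of two laws with equal weights -/
noncomputable def mix (p q : Finset ι → ℝ) (S : Finset ι) : ℝ := (p S + q S) / 2

lemma Law.mix {p q : Finset ι → ℝ} (hp : Law p) (hq : Law q) : Law (mix p q) := by
  refine ⟨fun S => ?_, ?_⟩
  · have h1 := hp.nonneg S
    have h2 := hq.nonneg S
    unfold Z50.mix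
    linarith
  · unfold Z50.mix
    rw [← Finset.sum_div, Finset.sum_add_distrib, hp.total, hq.total]
    norm_num

lemma Compat.mix_left {p p' q : Finset ι → ℝ} (h : Compat p q) (h' : Compat p' q) :
    Compat (mix p p') q := by
  intro S T hS hT
  by_cases h0 : p S = 0
  · by_cases h1 : p' S = 0
    · exact absurd (by simp [mix, h0, h1]) hS
    · exact h' S T h1 hT
  · exact h S T h0 hT

lemma up_mix (p q : Finset ι → ℝ) (J : Finset ι) : up (mix p q) J = (up p J + up q J) / 2 := by
  unfold up mix
  rw [← Finset.sum_add_distrib, Finset.sum_div]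
  refine Finset.sum_congr rfl fun S _ => ?_
  split_ifs <;> simp

lemma up_nonneg {p : Finset ι → ℝ} (hp : ∀ S, 0 ≤ p S) (J : Finset ι) : 0 ≤ up p J := by
  unfold up
  refine Finset.sum_nonneg fun S _ => ?_
  split_ifs
  · exact hp S
  · exact le_refl _

lemma up_anti {p : Finset ι → ℝ} (hp : ∀ S, 0 ≤ p S) {J J' : Finset ι} (h : J ⊆ J') :
    up p J' ≤ up p J := by
  unfold up
  refine Finset.sum_le_sum fun S _ => ?_
  by_cases h1 : J' ⊆ S
  · rw [if_pos h1, if_pos (h.trans h1)]
  · rw [if_neg h1]
    split_ifs
    · exact hp S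
    · exact le_refl _

lemma up_insert_le {p : Finset ι → ℝ} (hp : ∀ S, 0 ≤ p S) (J : Finset ι) (j : ι) :
    up p (insert j J) ≤ up p J := up_anti hp (subset_insert j J)

lemma up_empty {p : Finset ι → ℝ} (hp : Law p) : up p ∅ = 1 := by
  unfold up
  simpa using hp.total

lemma up_le_one {p : Finset ι → ℝ} (hp : Law p) (J : Finset ι) : up p J ≤ 1 := by
  rw [← up_empty hp]
  exact up_anti hp.nonneg (empty_subset J)

/-- one set `S` that meets all sets of the support of `q` in one point -/
lemma sum_mem {q : Finset ι → ℝ} {S : Finset ι} (h : ∀ T, q T ≠ 0 → (S ∩ T).card = 1)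
    (K : Finset ι) : ∑ j ∈ S, up q (insert j K) = up q K := by
  unfold up
  rw [Finset.sum_comm]
  refine Finset.sum_congr rfl fun T _ => ?_
  by_cases hT : q T = 0
  · simp [hT]
  · have h1 := h T hT
    by_cases hK : K ⊆ T
    · rw [if_pos hK]
      have e : ∀ j ∈ S, (if insert j K ⊆ T then q T else 0) = if j ∈ T then q T else 0 := by
        intro j _
        by_cases hj : j ∈ T
        · rw [if_pos hj, if_pos (insert_subset hj hK)]
        · rw [if_neg hj, if_neg]
          intro h2
          exact hj (h2 (mem_insert_self _ _))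
      rw [Finset.sum_congr rfl e, ← Finset.sum_filter, Finset.sum_const]
      have e2 : (S.filter fun j => j ∈ T) = S ∩ T := by
        ext j
        simp
      rw [e2, h1, one_smul]
    · rw [if_neg hK]
      refine Finset.sum_eq_zero fun j _ => ?_
      rw [if_neg]
      intro h2
      exact hK ((subset_insert j K).trans h2)

/-- weighted form: any weights `u j` -/
lemma sum_up_mul (p : Finset ι → ℝ) (u : ι → ℝ) (J : Finset ι) :
    ∑ j, up p (insert j J) * u j = ∑ S : Finset ι, if J ⊆ S then p S * ∑ j ∈ S, u j else 0 := by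
  unfold up
  simp_rw [Finset.sum_mul]
  rw [Finset.sum_comm]
  refine Finset.sum_congr rfl fun S _ => ?_
  by_cases hJ : J ⊆ S
  · rw [if_pos hJ, Finset.mul_sum]
    have e : ∀ j, (if insert j J ⊆ S then p S else 0) * u j = if j ∈ S then p S * u j else 0 := by
      intro j
      by_cases hj : j ∈ S
      · rw [if_pos hj, if_pos (insert_subset hj hJ)]
      · rw [if_neg hj, if_neg, zero_mul]
        intro h2
        exact hj (h2 (mem_insert_self _ _))
    simp_rw [e]
    rw [← Finset.sum_filter]
    refine Finset.sum_congr ?_ fun _ _ => rfl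
    ext j
    simp
  · rw [if_neg hJ]
    refine Finset.sum_eq_zero fun j _ => ?_
    rw [if_neg, zero_mul]
    intro h2
    exact hJ ((subset_insert j J).trans h2)

/-- the key identity -/
lemma ki {p q : Finset ι → ℝ} (h : Compat p q) (J K : Finset ι) :
    ∑ j, up p (insert j J) * up q (insert j K) = up p J * up q K := by
  rw [sum_up_mul]
  conv_rhs => unfold up
  rw [Finset.sum_mul]
  refine Finset.sum_congr rfl fun S _ => ?_
  by_cases hJ : J ⊆ S
  · rw [if_pos hJ, if_pos hJ]
    by_cases hS : p S = 0
    · rw [hS, zero_mul, zero_mul]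
    · rw [sum_mem (fun T hT => h S T hS hT) K]
      rfl
  · rw [if_neg hJ, if_neg hJ, zero_mul]

lemma exists_of_up_ne {p : Finset ι → ℝ} {J : Finset ι} (h : up p J ≠ 0) :
    ∃ S, J ⊆ S ∧ p S ≠ 0 := by
  by_contra hc
  push Not at hc
  apply h
  unfold up
  refine Finset.sum_eq_zero fun S _ => ?_
  split_ifs with h1
  · exact hc S h1
  · rfl

/-- partners of `i` on the two sides are different -/
lemma partners {p q : Finset ι → ℝ} (h : Compat p q) {J K : Finset ι} {i j : ι} (hij : i ≠ j)
    (h1 : up p (insert i (insert j J)) ≠ 0) (h2 : up q (insert i (insert j K)) ≠ 0) : False := by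
  obtain ⟨S, hS, hpS⟩ := exists_of_up_ne h1
  obtain ⟨T, hT, hqT⟩ := exists_of_up_ne h2
  have h3 := h S T hpS hqT
  rw [Finset.card_eq_one] at h3
  obtain ⟨a, ha⟩ := h3
  have hi : i ∈ S ∩ T :=
    mem_inter.2 ⟨hS (mem_insert_self _ _), hT (mem_insert_self _ _)⟩
  have hj : j ∈ S ∩ T :=
    mem_inter.2 ⟨hS (mem_insert_of_mem (mem_insert_self _ _)),
      hT (mem_insert_of_mem (mem_insert_self _ _))⟩
  rw [ha, mem_singleton] at hi hj
  exact hij (hi.trans hj.symm)

end Z50
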