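import Mathlib

/-!
Product weights on the cube and the level one inequality.
-/

set_option autoImplicit false

namespace Z50

open Finset

variable {n : ℕ}

/-- product weight with factors `ρ k b` -/
noncomputable def wt (ρ : Fin n → Bool → ℝ) (x : Fin n → Bool) : ℝ := ∏ k, ρ k (x k)

lemma wt_nonneg {ρ : Fin n → Bool → ℝ} (h : ∀ k b, 0 ≤ ρ k b) (x : Fin n → Bool) : 0 ≤ wt ρ x :=
  Finset.prod_nonneg fun k _ => h k (x k)

lemma sum_wt_mul (ρ u : Fin n → Bool → ℝ) :
    ∑ x : Fin n → Bool, wt ρ x * ∏ k, u k (x k) = ∏ k, ∑ b, ρ k b * u k b := by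
  rw [Finset.prod_univ_sum]
  rw [Fintype.piFinset_univ]
  refine Finset.sum_congr rfl fun x _ => ?_
  unfold wt
  rw [← Finset.prod_mul_distrib]

lemma sum_wt (ρ : Fin n → Bool → ℝ) :
    ∑ x : Fin n → Bool, wt ρ x = ∏ k, ∑ b, ρ k b := by
  have h := sum_wt_mul ρ (fun _ _ => 1)
  simpa using h

lemma sum_wt_one {ρ : Fin n → Bool → ℝ} (h : ∀ k, ∑ b, ρ k b = 1) :
    ∑ x : Fin n → Bool, wt ρ x = 1 := by
  rw [sum_wt]
  exact Finset.prod_eq_one fun k _ => h k

/-- the point mass at `u` -/
noncomputable def dl (u : Bool) (b : Bool) : ℝ := if b = u then 1 else 0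

/-- factors for `w`: a uniform bit where `w k = true`, the bit `false` elsewhere -/
noncomputable def rho (w : Fin n → Bool) (k : Fin n) (b : Bool) : ℝ :=
  if w k = true then 1 / 2 else dl false b

lemma dl_nonneg (u b : Bool) : 0 ≤ dl u b := by
  unfold dl
  split_ifs <;> norm_num

lemma rho_nonneg (w : Fin n → Bool) (k : Fin n) (b : Bool) : 0 ≤ rho w k b := by
  unfold rho
  split_ifs
  · norm_num
  · exact dl_nonneg _ _

lemma dl_sum (u : Bool) : ∑ b, dl u b = 1 := by
  unfold dl
  simp

lemma rho_sum (w : Fin n → Bool) (k : Fin n) : ∑ b, rho w k b = 1 := by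
  unfold rho
  split_ifs
  · simp
  · exact dl_sum _

/-- the sign of a bit -/
noncomputable def sgn (b : Bool) : ℝ := if b = true then 1 else -1

/-- **Level one inequality**. -/
theorem level_one (w : Fin n → Bool) (f : (Fin n → Bool) → ℝ) (hf0 : ∀ x, 0 ≤ f x)
    (hf1 : ∀ x, f x ≤ 1) (hE : 0 < ∑ x, wt (rho w) x * f x) :
    ∑ i ∈ univ.filter (fun i => w i = true), (∑ x, wt (rho w) x * f x * sgn (x i)) ^ 2 ≤
      2 * (∑ x, wt (rho w) x * f x) ^ 2 * Real.log (1 / ∑ x, wt (rho w) x * f x) := by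
  set E := ∑ x, wt (rho w) x * f x with hEdef
  set d : Fin n → ℝ := fun i => ∑ x, wt (rho w) x * f x * sgn (x i) with hd
  set β : Fin n → ℝ := fun i => if w i = true then d i / E else 0 with hβ
  set B := ∑ i, β i ^ 2 with hB
  have hμ : ∀ x, 0 ≤ wt (rho w) x := wt_nonneg (rho_nonneg w)
  have hBE : B * E ^ 2 = ∑ i ∈ univ.filter (fun i => w i = true), d i ^ 2 := by
    rw [hB, Finset.sum_mul, Finset.sum_filter]
    refine Finset.sum_congr rfl fun i _ => ?_
    rw [hβ]
    by_cases h : w i = true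
    · simp only [h, if_true]
      field_simp
    · simp only [h]
      simp
  -- upper bound
  have hup : ∑ x, wt (rho w) x * Real.exp (∑ i, β i * sgn (x i)) ≤ Real.exp (B / 2) := by
    have e1 : ∀ x : Fin n → Bool, Real.exp (∑ i, β i * sgn (x i)) =
        ∏ k, (fun k b => Real.exp (β k * sgn b)) k (x k) := by
      intro x
      rw [Real.exp_sum]
    have e0 := sum_wt_mul (rho w) (fun k b => Real.exp (β k * sgn b))
    have e2 : Real.exp (B / 2) = ∏ k, Real.exp (β k ^ 2 / 2) := by
      rw [← Real.exp_sum, hB, Finset.sum_div]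
    have e1' : ∑ x : Fin n → Bool, wt (rho w) x * Real.exp (∑ i, β i * sgn (x i)) =
        ∑ x : Fin n → Bool, wt (rho w) x * ∏ k, Real.exp (β k * sgn (x k)) := by
      refine Finset.sum_congr rfl fun x _ => ?_
      rw [e1 x]
    rw [e1', e0, e2]
    refine Finset.prod_le_prod (fun k _ => ?_) fun k _ => ?_
    · exact Finset.sum_nonneg fun b _ => mul_nonneg (rho_nonneg w k b) (Real.exp_pos _).le
    · by_cases h : w k = true
      · have e3 : ∑ b, rho w k b * Real.exp (β k * sgn b) = Real.cosh (β k) := by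
          rw [Real.cosh_eq]
          simp only [Fintype.sum_bool, rho, h, if_true, sgn]
          simp
          ring
        rw [e3]
        exact Real.cosh_le_exp_half_sq _
      · have e3 : β k = 0 := by
          rw [hβ]
          simp [h]
        have e4 : ∑ b, rho w k b * Real.exp (β k * sgn b) = 1 := by
          rw [← rho_sum w k]
          refine Finset.sum_congr rfl fun b _ => ?_
          rw [e3, zero_mul, Real.exp_zero, mul_one]
        rw [e4, e3]
        norm_num
  -- lower bound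
  have hlow : Real.exp B * E ≤ ∑ x, wt (rho w) x * f x * Real.exp (∑ i, β i * sgn (x i)) := by
    have e1 : ∀ x ∈ univ, wt (rho w) x * f x *
        (Real.exp B * (1 + (∑ i, β i * sgn (x i)) - B)) ≤
        wt (rho w) x * f x * Real.exp (∑ i, β i * sgn (x i)) := by
      intro x _
      refine mul_le_mul_of_nonneg_left ?_ (mul_nonneg (hμ x) (hf0 x))
      have h1 := Real.add_one_le_exp ((∑ i, β i * sgn (x i)) - B)
      have h2 : Real.exp (∑ i, β i * sgn (x i)) =
          Real.exp B * Real.exp ((∑ i, β i * sgn (x i)) - B) := by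
        rw [← Real.exp_add]
        congr 1
        ring
      rw [h2]
      refine mul_le_mul_of_nonneg_left ?_ (Real.exp_pos _).le
      linarith
    refine le_trans (le_of_eq ?_) (Finset.sum_le_sum e1)
    have e2 : ∀ x, wt (rho w) x * f x * (Real.exp B * (1 + (∑ i, β i * sgn (x i)) - B)) =
        Real.exp B * ((1 - B) * (wt (rho w) x * f x) +
          ∑ i, β i * (wt (rho w) x * f x * sgn (x i))) := by
      intro x
      have e3 : ∑ i, β i * (wt (rho w) x * f x * sgn (x i)) =
          wt (rho w) x * f x * ∑ i, β i * sgn (x i) := by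
        rw [Finset.mul_sum]
        refine Finset.sum_congr rfl fun i _ => ?_
        ring
      rw [e3]
      ring
    simp_rw [e2]
    rw [← Finset.mul_sum, Finset.sum_add_distrib, ← Finset.mul_sum, Finset.sum_comm]
    simp_rw [← Finset.mul_sum]
    congr 1
    have e4 : ∑ i, β i * d i = B * E := by
      rw [hB, Finset.sum_mul]
      refine Finset.sum_congr rfl fun i _ => ?_
      rw [hβ]
      by_cases h : w i = true
      · simp only [h, if_true]
        field_simp
      · simp only [h]
        simp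
    have e5 : ∑ i, β i * ∑ x, wt (rho w) x * f x * sgn (x i) = ∑ i, β i * d i := rfl
    rw [e5, e4]
    ring
  have hmid : ∑ x, wt (rho w) x * f x * Real.exp (∑ i, β i * sgn (x i)) ≤
      ∑ x, wt (rho w) x * Real.exp (∑ i, β i * sgn (x i)) := by
    refine Finset.sum_le_sum fun x _ => ?_
    refine mul_le_mul_of_nonneg_right ?_ (Real.exp_pos _).le
    have h1 := hμ x
    have h2 := hf1 x
    nlinarith
  have hfin : Real.exp B * E ≤ Real.exp (B / 2) := hlow.trans (hmid.trans hup)
  have hlog : B + Real.log E ≤ B / 2 := by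
    have h1 : Real.exp (B + Real.log E) ≤ Real.exp (B / 2) := by
      rw [Real.exp_add, Real.exp_log hE]
      exact hfin
    exact Real.exp_le_exp.1 h1
  have hB2 : B ≤ 2 * Real.log (1 / E) := by
    rw [one_div, Real.log_inv]
    linarith
  have e6 : ∑ i ∈ univ.filter (fun i => w i = true), (∑ x, wt (rho w) x * f x * sgn (x i)) ^ 2 =
      ∑ i ∈ univ.filter (fun i => w i = true), d i ^ 2 := rfl
  rw [e6, ← hBE]
  nlinarith [mul_le_mul_of_nonneg_right hB2 (sq_nonneg E)]

/-- linearised form -/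
theorem level_lin (w : Fin n → Bool) (f : (Fin n → Bool) → ℝ) (hf0 : ∀ x, 0 ≤ f x)
    (hf1 : ∀ x, f x ≤ 1) {c Λ : ℝ} (hc : 0 < c) (hΛ : 0 < Λ) (hcΛ : c ^ 2 = 2 * Real.log Λ) :
    ∑ i ∈ univ.filter (fun i => w i = true), |2 * ∑ x, wt (rho w) x * f x * sgn (x i)| ≤
      2 * Real.sqrt n * (c * (∑ x, wt (rho w) x * f x) - (∑ x, wt (rho w) x * f x) / c +
        1 / (c * Λ)) := by
  set E := ∑ x, wt (rho w) x * f x with hEdef
  set s := univ.filter (fun i : Fin n => w i = true) with hs
  set d : Fin n → ℝ := fun i => ∑ x, wt (rho w) x * f x * sgn (x i) with hd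
  have hμ : ∀ x, 0 ≤ wt (rho w) x := wt_nonneg (rho_nonneg w)
  have hE0 : 0 ≤ E := Finset.sum_nonneg fun x _ => mul_nonneg (hμ x) (hf0 x)
  have hsum : ∑ i ∈ s, |2 * ∑ x, wt (rho w) x * f x * sgn (x i)| = 2 * ∑ i ∈ s, |d i| := by
    rw [Finset.mul_sum]
    refine Finset.sum_congr rfl fun i _ => ?_
    rw [abs_mul, abs_of_pos (by norm_num : (0 : ℝ) < 2)]
  rw [hsum]
  have hn : (0 : ℝ) ≤ Real.sqrt n := Real.sqrt_nonneg _
  rcases hE0.eq_or_lt with hz | hz
  · -- `E = 0`
    have h0 : ∀ x, wt (rho w) x * f x = 0 := by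
      have := (Finset.sum_eq_zero_iff_of_nonneg
        (fun x _ => mul_nonneg (hμ x) (hf0 x))).1 hz.symm
      exact fun x => this x (mem_univ x)
    have hd0 : ∀ i, d i = 0 := by
      intro i
      rw [hd]
      refine Finset.sum_eq_zero fun x _ => ?_
      rw [h0 x, zero_mul]
    simp_rw [hd0]
    rw [← hz]
    simp only [abs_zero, Finset.sum_const_zero, mul_zero, zero_div, sub_zero, zero_add]
    positivity
  · have h1 : ∑ i ∈ s, d i ^ 2 ≤ 2 * E ^ 2 * Real.log (1 / E) :=
      level_one w f hf0 hf1 hz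
    have hEle : E ≤ 1 := by
      rw [← sum_wt_one (rho_sum w)]
      refine Finset.sum_le_sum fun x _ => ?_
      have := hμ x
      have := hf1 x
      nlinarith
    have hlog0 : 0 ≤ Real.log (1 / E) := by
      refine Real.log_nonneg ?_
      rw [le_div_iff₀ hz]
      linarith
    -- `log (1/E) ≤ log Λ + 1/(Λ E) - 1`
    have h2 : Real.log (1 / E) ≤ Real.log Λ + 1 / (Λ * E) - 1 := by
      have h3 := Real.log_le_sub_one_of_pos (x := 1 / (Λ * E)) (by positivity)
      have h4 : Real.log (1 / (Λ * E)) = Real.log (1 / E) - Real.log Λ := by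
        rw [one_div, Real.log_inv, Real.log_mul hΛ.ne' hz.ne', one_div, Real.log_inv]
        ring
      linarith
    -- Cauchy-Schwarz
    have h5 : (∑ i ∈ s, |d i|) ^ 2 ≤ n * (2 * E ^ 2 * Real.log (1 / E)) := by
      have h6 := sq_sum_le_card_mul_sum_sq (s := s) (f := fun i => |d i|)
      have h7 : (s.card : ℝ) ≤ n := by
        have := Finset.card_le_univ s
        rw [Fintype.card_fin] at this
        exact_mod_cast this
      have h8 : ∑ i ∈ s, |d i| ^ 2 = ∑ i ∈ s, d i ^ 2 := by
        refine Finset.sum_congr rfl fun i _ => ?_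
        rw [sq_abs]
      rw [h8] at h6
      have h9 : 0 ≤ ∑ i ∈ s, d i ^ 2 := Finset.sum_nonneg fun i _ => sq_nonneg _
      calc (∑ i ∈ s, |d i|) ^ 2 ≤ s.card * ∑ i ∈ s, d i ^ 2 := h6
        _ ≤ n * ∑ i ∈ s, d i ^ 2 := mul_le_mul_of_nonneg_right h7 h9
        _ ≤ _ := mul_le_mul_of_nonneg_left h1 (Nat.cast_nonneg n)
    -- the linearised right-hand side
    set Q := E * (Real.log (1 / E) / c + c / 2) with hQ
    have hQ0 : 0 ≤ Q := by positivity
    have h10 : (∑ i ∈ s, |d i|) ^ 2 ≤ (Real.sqrt n * Q) ^ 2 := by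
      rw [mul_pow, Real.sq_sqrt (Nat.cast_nonneg n)]
      refine h5.trans (mul_le_mul_of_nonneg_left ?_ (Nat.cast_nonneg n))
      have h11 : 2 * Real.log (1 / E) ≤ (Real.log (1 / E) / c + c / 2) ^ 2 := by
        have h12 : (Real.log (1 / E) / c + c / 2) ^ 2 - 2 * Real.log (1 / E) =
            (Real.log (1 / E) / c - c / 2) ^ 2 := by
          field_simp
          ring
        nlinarith [sq_nonneg (Real.log (1 / E) / c - c / 2)]
      rw [hQ, mul_pow]
      have := mul_le_mul_of_nonneg_left h11 (sq_nonneg E)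
      linarith
    have h13 : ∑ i ∈ s, |d i| ≤ Real.sqrt n * Q := by
      refine abs_le_of_sq_le_sq' h10 (by positivity) |>.2
    have h14 : Q ≤ c * E - E / c + 1 / (c * Λ) := by
      have h15 : Real.log (1 / E) / c ≤ (Real.log Λ + 1 / (Λ * E) - 1) / c :=
        div_le_div_of_nonneg_right h2 hc.le
      have h16 : Q ≤ E * ((Real.log Λ + 1 / (Λ * E) - 1) / c + c / 2) := by
        rw [hQ]
        refine mul_le_mul_of_nonneg_left ?_ hE0
        linarith
      refine h16.trans (le_of_eq ?_)
      have h17 : Real.log Λ = c ^ 2 / 2 := by linarith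
      rw [h17]
      field_simp
      ring
    have h18 := mul_le_mul_of_nonneg_left h14 hn
    linarith

end Z50
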