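import Mathlib

/-!
# The two numerical facts at the end of the proof

`num`: the numbers of STEP 4. `omega`: a fourth root grows faster than every multiple of the logarithm.
-/

namespace Pool.Agent.Lib.MP_052029_lc.U

theorem num (n m L : ℕ) (hL : 1 ≤ L) (hm : m ≤ 2 ^ L) (c : ℝ) (hc : 0 ≤ c)
    (hc2 : c ^ 2 = 2 * Real.log (((2 : ℝ) ^ L) ^ (L + 5)))
    (h : (n : ℝ) * (7 / 24 - 2 * ((m : ℝ) * (1 / 4) ^ (L + 3))) ≤
      16 * (2 * ((L : ℝ) + 3) + 3) * Real.sqrt n * c) :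
    n ≤ 21000 * (L + 5) ^ 4 := by
  have hmR : (m : ℝ) ≤ 2 ^ L := by exact_mod_cast hm
  have h1 : (m : ℝ) * (1 / 4) ^ (L + 3) ≤ 1 / 128 := by
    have e1 : (m : ℝ) * (1 / 4) ^ (L + 3) ≤ 2 ^ L * (1 / 4) ^ (L + 3) :=
      mul_le_mul_of_nonneg_right hmR (by positivity)
    have e2 : (2 : ℝ) ^ L * (1 / 4) ^ (L + 3) = (1 / 2) ^ L * (1 / 64) := by
      rw [pow_add, ← mul_assoc, ← mul_pow]
      norm_num
    have e3 : ((1 : ℝ) / 2) ^ L ≤ 1 / 2 := by
      calc ((1 : ℝ) / 2) ^ L ≤ (1 / 2) ^ 1 :=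
            pow_le_pow_of_le_one (by norm_num) (by norm_num) hL
        _ = 1 / 2 := pow_one _
    rw [e2] at e1
    linarith
  set s : ℝ := Real.sqrt n with hs
  have hs0 : 0 ≤ s := Real.sqrt_nonneg _
  have hss : s ^ 2 = n := Real.sq_sqrt (Nat.cast_nonneg n)
  set l : ℝ := (L : ℝ) with hl
  have hl1 : 1 ≤ l := by rw [hl]; exact_mod_cast hL
  have hk : (n : ℝ) * (53 / 192) ≤ 16 * (2 * (l + 3) + 3) * s * c := by
    refine le_trans (mul_le_mul_of_nonneg_left ?_ (Nat.cast_nonneg n)) h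
    linarith
  have hlog : c ^ 2 = 2 * (l * (l + 5)) * Real.log 2 := by
    rw [hc2, ← pow_mul, Real.log_pow]
    push_cast
    rw [← hl]
    ring
  have hlog2 : Real.log 2 < 0.6931471808 := Real.log_two_lt_d9
  have hc3 : c ^ 2 ≤ 1.3862943616 * (l + 5) ^ 2 := by
    rw [hlog]
    have e1 : l * (l + 5) ≤ (l + 5) ^ 2 := by nlinarith
    have e2 : 0 ≤ l * (l + 5) := by positivity
    have e3 : 2 * (l * (l + 5)) * Real.log 2 ≤ 2 * (l * (l + 5)) * 0.6931471808 :=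
      mul_le_mul_of_nonneg_left hlog2.le (by positivity)
    nlinarith
  have hfin : (n : ℝ) ≤ 21000 * (l + 5) ^ 4 := by
    rcases eq_or_lt_of_le hs0 with hz | hpos
    · have : (n : ℝ) = 0 := by rw [← hss, ← hz]; norm_num
      rw [this]
      positivity
    · have h2 : s * (53 / 192) ≤ 16 * (2 * (l + 3) + 3) * c := by
        have : s * (s * (53 / 192)) ≤ s * (16 * (2 * (l + 3) + 3) * c) := by
          rw [← hss] at hk
          nlinarith
        exact le_of_mul_le_mul_left this hpos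
      have h3 : (s * (53 / 192)) ^ 2 ≤ (16 * (2 * (l + 3) + 3) * c) ^ 2 :=
        pow_le_pow_left₀ (by positivity) h2 2
      have h4 : (16 * (2 * (l + 3) + 3) * c) ^ 2 ≤ 1024 * (l + 5) ^ 2 * c ^ 2 := by
        have e1 : (16 * (2 * (l + 3) + 3) * c) ^ 2 = 256 * (2 * l + 9) ^ 2 * c ^ 2 := by ring
        have e2 : (2 * l + 9) ^ 2 ≤ 4 * (l + 5) ^ 2 := by nlinarith
        rw [e1]
        nlinarith [sq_nonneg c, mul_le_mul_of_nonneg_right e2 (sq_nonneg c)]
      have h5 : 1024 * (l + 5) ^ 2 * c ^ 2 ≤ 1024 * (l + 5) ^ 2 * (1.3862943616 * (l + 5) ^ 2) :=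
        mul_le_mul_of_nonneg_left hc3 (by positivity)
      have h6 : (s * (53 / 192)) ^ 2 = (n : ℝ) * (53 / 192) ^ 2 := by
        rw [mul_pow, hss]
      rw [h6] at h3
      have h7 : (n : ℝ) * (53 / 192) ^ 2 ≤ 1024 * 1.3862943616 * (l + 5) ^ 4 := by
        refine (h3.trans (h4.trans h5)).trans (le_of_eq ?_)
        ring
      have h8 : 0 ≤ (l + 5) ^ 4 := by positivity
      nlinarith
  have : (n : ℝ) ≤ ((21000 * (L + 5) ^ 4 : ℕ) : ℝ) := by
    push_cast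
    rw [← hl]
    exact hfin
  exact_mod_cast this

theorem omega (u : ℕ → ℕ) (hu : ∀ n, n ≤ 21000 * (u n + 6) ^ 4) :
    ∀ C : ℝ, ∃ N : ℕ, ∀ n ≥ N, C * Real.log n < u n := by
  intro C
  set D : ℝ := |C| + 6 with hD
  have hDpos : 0 < D := by positivity
  have hlit := (Real.isLittleO_pow_log_id_atTop (n := 4)).bound
    (c := 1 / (2 * 21000 * D ^ 4)) (by positivity)
  have hev : ∀ᶠ n : ℕ in Filter.atTop, 21000 * D ^ 4 * Real.log n ^ 4 < n := by
    have h1 := tendsto_natCast_atTop_atTop.eventually hlit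
    filter_upwards [h1, Filter.eventually_ge_atTop 1] with n hn hn1
    have hnpos : (0 : ℝ) < n := by exact_mod_cast hn1
    rw [Real.norm_eq_abs, Real.norm_eq_abs, id, abs_of_pos hnpos] at hn
    have h2 : Real.log n ^ 4 ≤ 1 / (2 * 21000 * D ^ 4) * n := (le_abs_self _).trans hn
    have h3 : 21000 * D ^ 4 * Real.log n ^ 4 ≤ 21000 * D ^ 4 * (1 / (2 * 21000 * D ^ 4) * n) :=
      mul_le_mul_of_nonneg_left h2 (by positivity)
    have h4 : 21000 * D ^ 4 * (1 / (2 * 21000 * D ^ 4) * n) = (n : ℝ) / 2 := by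
      field_simp
    rw [h4] at h3
    linarith
  have hev2 : ∀ᶠ n : ℕ in Filter.atTop, 1 ≤ Real.log n :=
    (Real.tendsto_log_atTop.comp tendsto_natCast_atTop_atTop).eventually_ge_atTop 1
  obtain ⟨N, hN⟩ := Filter.eventually_atTop.1 (hev.and hev2)
  refine ⟨N, fun n hn => ?_⟩
  obtain ⟨h1, h2⟩ := hN n hn
  by_contra hcon
  push Not at hcon
  have h3 : (u n : ℝ) + 6 ≤ D * Real.log n := by
    have e1 : C * Real.log n ≤ |C| * Real.log n :=
      mul_le_mul_of_nonneg_right (le_abs_self C) (by linarith)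
    rw [hD]
    nlinarith
  have h4 : (n : ℝ) ≤ 21000 * ((u n : ℝ) + 6) ^ 4 := by exact_mod_cast hu n
  have h5 : ((u n : ℝ) + 6) ^ 4 ≤ (D * Real.log n) ^ 4 :=
    pow_le_pow_left₀ (by positivity) h3 4
  have h6 : (n : ℝ) ≤ 21000 * D ^ 4 * Real.log n ^ 4 := by
    refine h4.trans ?_
    have : 21000 * (D * Real.log n) ^ 4 = 21000 * D ^ 4 * Real.log n ^ 4 := by ring
    rw [← this]
    exact mul_le_mul_of_nonneg_left h5 (by norm_num)
  linarith

end Pool.Agent.Lib.MP_052029_lc.U
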