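import Pool.Agent.Lib.MP_052029_lc.U.Avg
import Pool.Agent.Lib.MP_052029_lc.U.Num
import Pool.Agent.Lib.MP_052029_lc.U.Br

/-!
The lower bound for unambiguous Arthur-Merlin protocols for set disjointness.
-/

set_option autoImplicit false

namespace Z50

open Finset MP052029

variable {ι : Type*} [Fintype ι] [DecidableEq ι]

/-- the law of `f r` for a uniform `r` -/
noncomputable def lawOf {R : Type*} [Fintype R] (f : R → Finset ι) (S : Finset ι) : ℝ :=
  (∑ r, if f r = S then (1 : ℝ) else 0) / Fintype.card R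

lemma card_pos' (R : Type*) [Fintype R] [Nonempty R] : (0 : ℝ) < Fintype.card R := by
  exact_mod_cast Fintype.card_pos

lemma lawOf_law {R : Type*} [Fintype R] [Nonempty R] (f : R → Finset ι) : Law (lawOf f) := by
  have hR := card_pos' R
  refine ⟨fun S => ?_, ?_⟩
  · refine div_nonneg (Finset.sum_nonneg fun r _ => ?_) hR.le
    split_ifs <;> norm_num
  · unfold lawOf
    rw [← Finset.sum_div, Finset.sum_comm]
    simp only [Finset.sum_ite_eq, mem_univ, if_true, Finset.sum_const, Finset.card_univ,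
      nsmul_eq_mul, mul_one]
    exact div_self hR.ne'

omit [Fintype ι] in
lemma lawOf_supp {R : Type*} [Fintype R] {f : R → Finset ι} {S : Finset ι}
    (h : lawOf f S ≠ 0) : ∃ r, f r = S := by
  by_contra hc
  push Not at hc
  apply h
  unfold lawOf
  rw [Finset.sum_eq_zero, zero_div]
  intro r _
  rw [if_neg (hc r)]

open Classical in
lemma meet_lawOf {R Q : Type*} [Fintype R] [Fintype Q] (f : R → Finset ι) (g : Q → Finset ι) :
    meet (lawOf f) (lawOf g) =
      (∑ r, ∑ q, if (f r ∩ g q).Nonempty then (1 : ℝ) else 0) /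
        (Fintype.card R * Fintype.card Q) := by
  unfold meet lawOf
  have e : ∀ S T : Finset ι, (∑ r, if f r = S then (1 : ℝ) else 0) / Fintype.card R *
      ((∑ q, if g q = T then (1 : ℝ) else 0) / Fintype.card Q) *
      (if (S ∩ T).Nonempty then (1 : ℝ) else 0) =
      (∑ r, ∑ q, if f r = S then (if g q = T then
        (if (f r ∩ g q).Nonempty then (1 : ℝ) else 0) else 0) else 0) /
        (Fintype.card R * Fintype.card Q) := by
    intro S T
    rw [div_mul_div_comm, Finset.sum_mul_sum, div_mul_eq_mul_div, Finset.sum_mul]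
    congr 1
    refine Finset.sum_congr rfl fun r _ => ?_
    rw [Finset.sum_mul]
    refine Finset.sum_congr rfl fun q _ => ?_
    by_cases h1 : f r = S
    · by_cases h2 : g q = T
      · subst h1 h2
        simp
      · simp [h2]
    · simp [h1]
  simp_rw [e]
  simp_rw [← Finset.sum_div]
  congr 1
  calc ∑ S : Finset ι, ∑ T : Finset ι, ∑ r, ∑ q, (if f r = S then (if g q = T then
        (if (f r ∩ g q).Nonempty then (1 : ℝ) else 0) else 0) else 0)
      = ∑ S : Finset ι, ∑ r, ∑ T : Finset ι, ∑ q, (if f r = S then (if g q = T then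
        (if (f r ∩ g q).Nonempty then (1 : ℝ) else 0) else 0) else 0) := by
        refine Finset.sum_congr rfl fun S _ => ?_
        rw [Finset.sum_comm]
    _ = ∑ r, ∑ S : Finset ι, ∑ T : Finset ι, ∑ q, (if f r = S then (if g q = T then
        (if (f r ∩ g q).Nonempty then (1 : ℝ) else 0) else 0) else 0) := by
        rw [Finset.sum_comm]
    _ = ∑ r, ∑ S : Finset ι, ∑ q, ∑ T : Finset ι, (if f r = S then (if g q = T then
        (if (f r ∩ g q).Nonempty then (1 : ℝ) else 0) else 0) else 0) := by
        refine Finset.sum_congr rfl fun r _ => Finset.sum_congr rfl fun S _ => ?_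
        rw [Finset.sum_comm]
    _ = ∑ r, ∑ q, ∑ S : Finset ι, ∑ T : Finset ι, (if f r = S then (if g q = T then
        (if (f r ∩ g q).Nonempty then (1 : ℝ) else 0) else 0) else 0) := by
        refine Finset.sum_congr rfl fun r _ => ?_
        rw [Finset.sum_comm]
    _ = ∑ r, ∑ q, if (f r ∩ g q).Nonempty then (1 : ℝ) else 0 := by
        refine Finset.sum_congr rfl fun r _ => Finset.sum_congr rfl fun q _ => ?_
        have e1 : ∀ S : Finset ι, (∑ T : Finset ι, (if f r = S then (if g q = T then
            (if (f r ∩ g q).Nonempty then (1 : ℝ) else 0) else 0) else 0)) =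
            if f r = S then (if (f r ∩ g q).Nonempty then (1 : ℝ) else 0) else 0 := by
          intro S
          by_cases h : f r = S
          · simp only [h, if_true]
            rw [Finset.sum_ite_eq]
            simp
          · simp [h]
        simp_rw [e1]
        rw [Finset.sum_ite_eq]
        simp

variable {n : ℕ}

/-- **Lower bound.** An unambiguous private-coin Arthur-Merlin protocol for `DISJ_n` with at most
`2 ^ L` rectangles, `L ≥ 1`, has `n ≤ 21000 (L + 5) ^ 4`. -/
theorem lower_bound (P : Protocol n) (hC : P.Computes) (hU : P.Unambiguous) (L : ℕ) (hL : 1 ≤ L)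
    (hm : P.m ≤ 2 ^ L) : n ≤ 21000 * (L + 5) ^ 4 := by
  classical
  set Λ : ℝ := ((2 : ℝ) ^ L) ^ (L + 5) with hΛ
  have h2L : (1 : ℝ) ≤ 2 ^ L := one_le_pow₀ (by norm_num)
  have hΛ1 : 1 < Λ := by
    rw [hΛ, ← pow_mul]
    exact one_lt_pow₀ (by norm_num) (by positivity)
  have hlog : 0 < Real.log Λ := Real.log_pos hΛ1
  set c : ℝ := Real.sqrt (2 * Real.log Λ) with hc
  have hc0 : 0 < c := Real.sqrt_pos.2 (by positivity)
  have hc2 : c ^ 2 = 2 * Real.log Λ := Real.sq_sqrt (by positivity)
  have hmR : (P.m : ℝ) ≤ 2 ^ L := by exact_mod_cast hm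
  have hs : ∀ s ≤ L + 3 + 1, (Fintype.card (Fin P.m) : ℝ) ^ (s + 1) ≤ Λ := by
    intro s hs
    rw [Fintype.card_fin]
    calc (P.m : ℝ) ^ (s + 1) ≤ ((2 : ℝ) ^ L) ^ (s + 1) :=
          pow_le_pow_left₀ (Nat.cast_nonneg _) hmR _
      _ ≤ ((2 : ℝ) ^ L) ^ (L + 5) := pow_le_pow_right₀ h2L (by omega)
  have hcomp : ∀ x y : Fin n → Bool, (¬ ∃ k, x k = true ∧ y k = true) →
      Compat (lawOf (SA P x)) (lawOf (SB P y)) := by
    intro x y hd S T hS hT
    obtain ⟨r, rfl⟩ := lawOf_supp hS
    obtain ⟨q, rfl⟩ := lawOf_supp hT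
    exact card_inter_eq_one P hC hU x y hd r q
  have hmeet : ∀ x y : Fin n → Bool, (∃ k, x k = true ∧ y k = true) →
      meet (lawOf (SA P x)) (lawOf (SB P y)) ≤ 1 / 2 := by
    intro x y hd
    have h1 := (hC x y).2 (fun h => h hd)
    have h2 : meet (lawOf (SA P x)) (lawOf (SB P y)) = P.accept x y := by
      rw [meet_lawOf]
      unfold Protocol.accept Protocol.avg
      congr 1
      refine Finset.sum_congr rfl fun r _ => Finset.sum_congr rfl fun q _ => ?_
      beta_reduce
      by_cases h : ∃ i, P.Hit x y r q i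
      · rw [if_pos h, if_pos ((SA_inter_SB_nonempty P x y r q).2 h)]
      · rw [if_neg h, if_neg (fun h' => h ((SA_inter_SB_nonempty P x y r q).1 h'))]
    rw [h2]
    exact h1
  have key := main_avg (lam := fun x => lawOf (SA P x)) (lam' := fun y => lawOf (SB P y))
    (fun x => lawOf_law _) (fun y => lawOf_law _) hcomp hmeet hc0 (by linarith) hc2 (L + 3) hs
  rw [Fintype.card_fin] at key
  refine Pool.Agent.Lib.MP_052029_lc.U.num n P.m L hL hm c hc0.le hc2 (key.trans ?_)
  push_cast
  have h3 : 0 ≤ (2 * ((L : ℝ) + 3) + 3) * Real.sqrt n * c := by positivity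
  nlinarith

/-- in terms of the cost -/
theorem lower_cost (P : Protocol n) (hC : P.Computes) (hU : P.Unambiguous) :
    n ≤ 21000 * (P.cost + 6) ^ 4 :=
  lower_bound P hC hU (P.cost + 1) (Nat.le_add_left 1 _) (m_le_two_pow_cost_succ P)

end Z50
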