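import Pool.Agent.Lib.MP_052029_lc.U.One
import Pool.Agent.Lib.MP_052029_lc.U.Lev

/-!
Mixtures of laws over the cube.
-/

set_option autoImplicit false

namespace Z50

open Finset

variable {ι : Type*} [Fintype ι] [DecidableEq ι] {n : ℕ}

/-- mixture of the laws `lam x` with the weights `wt ρ x` -/
noncomputable def mixL (ρ : Fin n → Bool → ℝ) (lam : (Fin n → Bool) → Finset ι → ℝ)
    (S : Finset ι) : ℝ := ∑ x, wt ρ x * lam x S

omit [DecidableEq ι] in
lemma mixL_law {ρ : Fin n → Bool → ℝ} (h0 : ∀ k b, 0 ≤ ρ k b) (h1 : ∀ k, ∑ b, ρ k b = 1)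
    {lam : (Fin n → Bool) → Finset ι → ℝ} (hl : ∀ x, Law (lam x)) : Law (mixL ρ lam) := by
  refine ⟨fun S => ?_, ?_⟩
  · exact Finset.sum_nonneg fun x _ => mul_nonneg (wt_nonneg h0 x) ((hl x).nonneg S)
  · unfold mixL
    rw [Finset.sum_comm]
    have e : ∀ x : Fin n → Bool, ∑ S, wt ρ x * lam x S = wt ρ x := by
      intro x
      rw [← Finset.mul_sum, (hl x).total, mul_one]
    simp_rw [e]
    exact sum_wt_one h1

lemma up_mixL (ρ : Fin n → Bool → ℝ) (lam : (Fin n → Bool) → Finset ι → ℝ) (J : Finset ι) :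
    up (mixL ρ lam) J = ∑ x, wt ρ x * up (lam x) J := by
  unfold up mixL
  simp_rw [Finset.mul_sum]
  rw [Finset.sum_comm]
  refine Finset.sum_congr rfl fun S _ => ?_
  by_cases h : J ⊆ S
  · simp [h]
  · simp [h]

omit [Fintype ι] in
lemma mixL_compat {ρ ρ' : Fin n → Bool → ℝ} {lam lam' : (Fin n → Bool) → Finset ι → ℝ}
    (h : ∀ x y, wt ρ x ≠ 0 → wt ρ' y ≠ 0 → Compat (lam x) (lam' y)) :
    Compat (mixL ρ lam) (mixL ρ' lam') := by
  intro S T hS hT
  obtain ⟨x, _, hx⟩ := Finset.exists_ne_zero_of_sum_ne_zero hS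
  obtain ⟨y, _, hy⟩ := Finset.exists_ne_zero_of_sum_ne_zero hT
  exact h x y (left_ne_zero_of_mul hx) (left_ne_zero_of_mul hy) S T
    (right_ne_zero_of_mul hx) (right_ne_zero_of_mul hy)

lemma mixL_meet (ρ ρ' : Fin n → Bool → ℝ) (lam lam' : (Fin n → Bool) → Finset ι → ℝ) :
    meet (mixL ρ lam) (mixL ρ' lam') =
      ∑ x, ∑ y, wt ρ x * wt ρ' y * meet (lam x) (lam' y) := by
  classical
  unfold meet mixL
  have e : ∀ S T : Finset ι, (∑ x, wt ρ x * lam x S) * (∑ y, wt ρ' y * lam' y T) *
      (if (S ∩ T).Nonempty then (1 : ℝ) else 0) =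
      ∑ x, ∑ y, wt ρ x * wt ρ' y * (lam x S * lam' y T *
        (if (S ∩ T).Nonempty then (1 : ℝ) else 0)) := by
    intro S T
    rw [Finset.sum_mul_sum, Finset.sum_mul]
    refine Finset.sum_congr rfl fun x _ => ?_
    rw [Finset.sum_mul]
    refine Finset.sum_congr rfl fun y _ => ?_
    ring
  simp_rw [e, Finset.mul_sum]
  calc ∑ S : Finset ι, ∑ T : Finset ι, ∑ x, ∑ y, wt ρ x * wt ρ' y * (lam x S * lam' y T *
        (if (S ∩ T).Nonempty then (1 : ℝ) else 0))
      = ∑ S : Finset ι, ∑ x, ∑ T : Finset ι, ∑ y, wt ρ x * wt ρ' y * (lam x S * lam' y T *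
        (if (S ∩ T).Nonempty then (1 : ℝ) else 0)) := by
        refine Finset.sum_congr rfl fun S _ => ?_
        rw [Finset.sum_comm]
    _ = ∑ x, ∑ S : Finset ι, ∑ T : Finset ι, ∑ y, wt ρ x * wt ρ' y * (lam x S * lam' y T *
        (if (S ∩ T).Nonempty then (1 : ℝ) else 0)) := by
        rw [Finset.sum_comm]
    _ = ∑ x, ∑ S : Finset ι, ∑ y, ∑ T : Finset ι, wt ρ x * wt ρ' y * (lam x S * lam' y T *
        (if (S ∩ T).Nonempty then (1 : ℝ) else 0)) := by
        refine Finset.sum_congr rfl fun x _ => Finset.sum_congr rfl fun S _ => ?_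
        rw [Finset.sum_comm]
    _ = ∑ x, ∑ y, ∑ S : Finset ι, ∑ T : Finset ι, wt ρ x * wt ρ' y * (lam x S * lam' y T *
        (if (S ∩ T).Nonempty then (1 : ℝ) else 0)) := by
        refine Finset.sum_congr rfl fun x _ => ?_
        rw [Finset.sum_comm]

/-! ### One coordinate fixed -/

lemma wt_update (ρ : Fin n → Bool → ℝ) (i : Fin n) (f : Bool → ℝ) (x : Fin n → Bool) :
    wt (Function.update ρ i f) x = f (x i) * ∏ k ∈ univ.erase i, ρ k (x k) := by
  unfold wt
  rw [← Finset.mul_prod_erase univ _ (mem_univ i), Function.update_self]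
  congr 1
  refine Finset.prod_congr rfl fun k hk => ?_
  rw [Function.update_of_ne (Finset.ne_of_mem_erase hk)]

lemma wt_split (ρ : Fin n → Bool → ℝ) (i : Fin n) (x : Fin n → Bool) :
    wt ρ x = ρ i (x i) * ∏ k ∈ univ.erase i, ρ k (x k) := by
  unfold wt
  rw [← Finset.mul_prod_erase univ _ (mem_univ i)]

lemma half_sum {w : Fin n → Bool} {i : Fin n} (h : w i = true) (x : Fin n → Bool) :
    wt (rho w) x = (wt (Function.update (rho w) i (dl false)) x +
      wt (Function.update (rho w) i (dl true)) x) / 2 := by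
  rw [wt_update, wt_update, wt_split (rho w) i x]
  have e : rho w i (x i) = 1 / 2 := by simp [rho, h]
  rw [e]
  cases x i <;> simp [dl] <;> ring

lemma half_diff {w : Fin n → Bool} {i : Fin n} (h : w i = true) (x : Fin n → Bool) :
    wt (Function.update (rho w) i (dl true)) x - wt (Function.update (rho w) i (dl false)) x =
      2 * (wt (rho w) x * sgn (x i)) := by
  rw [wt_update, wt_update, wt_split (rho w) i x]
  have e : rho w i (x i) = 1 / 2 := by simp [rho, h]
  rw [e]
  cases x i <;> simp [dl, sgn]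

lemma rho_false {w : Fin n → Bool} {i : Fin n} (h : w i = false) :
    Function.update (rho w) i (dl false) = rho w := by
  rw [Function.update_eq_self_iff]
  funext b
  simp [rho, h]

lemma rho_flip (w : Fin n → Bool) (i : Fin n) (b : Bool) (f : Bool → ℝ) :
    Function.update (rho (Function.update w i b)) i f = Function.update (rho w) i f := by
  funext k
  by_cases hk : k = i
  · subst hk
    rw [Function.update_self, Function.update_self]
  · rw [Function.update_of_ne hk, Function.update_of_ne hk]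
    funext b
    unfold rho
    rw [Function.update_of_ne hk]

lemma upd_nonneg (w : Fin n → Bool) (i : Fin n) (u : Bool) (k : Fin n) (b : Bool) :
    0 ≤ Function.update (rho w) i (dl u) k b := by
  by_cases hk : k = i
  · subst hk
    rw [Function.update_self]
    exact dl_nonneg _ _
  · rw [Function.update_of_ne hk]
    exact rho_nonneg _ _ _

lemma upd_sum (w : Fin n → Bool) (i : Fin n) (u : Bool) (k : Fin n) :
    ∑ b, Function.update (rho w) i (dl u) k b = 1 := by
  by_cases hk : k = i
  · subst hk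
    rw [Function.update_self]
    exact dl_sum _
  · rw [Function.update_of_ne hk]
    exact rho_sum _ _

lemma upd_supp {w : Fin n → Bool} {i : Fin n} {u : Bool} {x : Fin n → Bool}
    (h : wt (Function.update (rho w) i (dl u)) x ≠ 0) :
    x i = u ∧ ∀ k, k ≠ i → x k = true → w k = true := by
  have h1 : ∀ k, Function.update (rho w) i (dl u) k (x k) ≠ 0 := fun k =>
    Finset.prod_ne_zero_iff.1 h k (mem_univ k)
  refine ⟨?_, fun k hk hx => ?_⟩
  · have h2 := h1 i
    rw [Function.update_self] at h2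
    by_contra hc
    exact h2 (by simp [dl, hc])
  · have h2 := h1 k
    rw [Function.update_of_ne hk, hx] at h2
    by_contra hc
    exact h2 (by simp [rho, dl, hc])

/-- the other player -/
def opp (w : Fin n → Bool) (k : Fin n) : Bool := !w k

lemma opp_flip (w : Fin n → Bool) (i : Fin n) (b : Bool) :
    opp (Function.update w i b) = Function.update (opp w) i (!b) := by
  funext k
  by_cases hk : k = i
  · subst hk
    simp [opp]
  · simp [opp, Function.update_of_ne hk]

/-- supports of the two sides: the inputs are disjoint unless both have the bit `i` -/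
lemma supp_disj {w : Fin n → Bool} {i : Fin n} {u u' : Bool} {x y : Fin n → Bool}
    (hx : wt (Function.update (rho w) i (dl u)) x ≠ 0)
    (hy : wt (Function.update (rho (opp w)) i (dl u')) y ≠ 0)
    (hu : ¬ (u = true ∧ u' = true)) : ¬ ∃ k, x k = true ∧ y k = true := by
  rintro ⟨k, h1, h2⟩
  obtain ⟨a1, a2⟩ := upd_supp hx
  obtain ⟨b1, b2⟩ := upd_supp hy
  by_cases hk : k = i
  · subst hk
    exact hu ⟨a1.symm.trans h1, b1.symm.trans h2⟩
  · have e1 := a2 k hk h1
    have e2 := b2 k hk h2
    simp [opp, e1] at e2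

lemma supp_meet {w : Fin n → Bool} {i : Fin n} {x y : Fin n → Bool}
    (hx : wt (Function.update (rho w) i (dl true)) x ≠ 0)
    (hy : wt (Function.update (rho (opp w)) i (dl true)) y ≠ 0) :
    ∃ k, x k = true ∧ y k = true :=
  ⟨i, (upd_supp hx).1, (upd_supp hy).1⟩

end Z50
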