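import Pool.Agent.Lib.MP_052029_lc.U.Num
import Pool.Agent.Lib.MP_052029_lc.U.Br

/-!
The last step: from `n ≤ 21000 (cost + 6)^4` for all protocols to the two forms of the answer.
-/

namespace MP052029

/-- The pointwise form of `omega`. -/
theorem omega_all (C : ℝ) : ∃ N : ℕ, ∀ n ≥ N, ∀ u : ℕ, n ≤ 21000 * (u + 6) ^ 4 →
    C * Real.log n < u := by
  classical
  have hex : ∀ n : ℕ, ∃ u : ℕ, n ≤ 21000 * (u + 6) ^ 4 := by
    intro n
    refine ⟨n, ?_⟩
    have h1 : n + 6 ≤ (n + 6) ^ 4 := Nat.le_self_pow (by norm_num) _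
    omega
  obtain ⟨N, hN⟩ := Pool.Agent.Lib.MP_052029_lc.U.omega (fun n => Nat.find (hex n))
    (fun n => Nat.find_spec (hex n)) C
  refine ⟨N, fun n hn u hu => ?_⟩
  refine lt_of_lt_of_le (hN n hn) ?_
  have := Nat.find_min' (hex n) hu
  exact_mod_cast this

/-- Assembly: the fourth power bound for all protocols gives both forms of the answer. -/
theorem answer_of_bound
    (h : ∀ (n : ℕ) (P : Protocol n), P.Computes → P.Unambiguous → n ≤ 21000 * (P.cost + 6) ^ 4) :
    (∀ (n : ℕ) (P : Protocol n), P.Computes → P.Unambiguous → n ≤ 21000 * (P.cost + 6) ^ 4) ∧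
    ∀ C : ℝ, ∃ N : ℕ, ∀ n ≥ N, ∀ P : Protocol n, P.Computes → P.Unambiguous →
      C * Real.log n < P.cost := by
  refine ⟨h, fun C => ?_⟩
  obtain ⟨N, hN⟩ := omega_all C
  exact ⟨N, fun n hn P hc hu => hN n hn P.cost (h n P hc hu)⟩

end MP052029
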