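import Pool.Agent.Lib.MP_052029_lc.U.Hyb

/-!
The inequality for one coordinate.
-/

set_option autoImplicit false

namespace Z50

open Finset

variable {ι : Type*} [Fintype ι] [DecidableEq ι]

/-! ### Exchange of the two sides -/

lemma Op_swap (b a : Finset ι → ι → ℝ) (g : Finset ι → Finset ι → ℝ) (J K : Finset ι) :
    Op b a g J K = Op a b (fun K J => g J K) K J := by
  unfold Op
  rw [Finset.sum_comm]
  refine Finset.sum_congr rfl fun k _ => Finset.sum_congr rfl fun j _ => ?_
  ring

lemma It_swap (b a : Finset ι → ι → ℝ) (g : Finset ι → Finset ι → ℝ) (n : ℕ) :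
    ∀ J K : Finset ι, It b a n g J K = It a b n (fun K J => g J K) K J := by
  induction n with
  | zero => exact fun _ _ => rfl
  | succ n ih =>
    intro J K
    rw [It_succ, It_succ, Op_swap]
    congr 1
    funext K J
    exact ih J K

/-! ### The positive functional -/

/-- probability-like weight of `g` on the histories that end with the same announcement -/
noncomputable def ell (l nu : Finset ι → ℝ) (n : ℕ) (g : Finset ι → Finset ι → ℝ) : ℝ :=
  It (ker (up nu)) (ker (up l)) n (Ev (ker (up nu)) (ker (up l)) g) ∅ ∅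

variable {l nu : Finset ι → ℝ}

lemma ell_mono (hl : ∀ S, 0 ≤ l S) (hnu : ∀ S, 0 ≤ nu S) (n : ℕ)
    {g g' : Finset ι → Finset ι → ℝ} (h : ∀ J K, g J K ≤ g' J K) :
    ell l nu n g ≤ ell l nu n g' :=
  It_mono (ker_up_nn hnu) (ker_up_nn hl) (Ev_mono (ker_up_nn hnu) (ker_up_nn hl) h) n ∅ ∅

lemma ell_add (n : ℕ) (g g' : Finset ι → Finset ι → ℝ) :
    ell l nu n (fun J K => g J K + g' J K) = ell l nu n g + ell l nu n g' := by
  unfold ell
  rw [← It_add]
  congr 1
  funext J K
  rw [Ev_add]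

lemma ell_sub (n : ℕ) (g g' : Finset ι → Finset ι → ℝ) :
    ell l nu n (fun J K => g J K - g' J K) = ell l nu n g - ell l nu n g' := by
  unfold ell
  rw [← It_sub]
  congr 1
  funext J K
  rw [Ev_sub]

lemma ell_smul (n : ℕ) (c : ℝ) (g : Finset ι → Finset ι → ℝ) :
    ell l nu n (fun J K => c * g J K) = c * ell l nu n g := by
  unfold ell
  rw [← It_smul]
  congr 1
  funext J K
  rw [Ev_smul]

lemma ell_sum {κ : Type*} (n : ℕ) (s : Finset κ) (g : κ → Finset ι → Finset ι → ℝ) :
    ell l nu n (fun J K => ∑ i ∈ s, g i J K) = ∑ i ∈ s, ell l nu n (g i) := by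
  classical
  induction s using Finset.induction_on with
  | empty =>
    simp only [Finset.sum_empty]
    have h := ell_smul (l := l) (nu := nu) n 0 (fun _ _ => (0 : ℝ))
    simpa using h
  | insert i s hi ih =>
    rw [Finset.sum_insert hi, ← ih, ← ell_add]
    simp_rw [Finset.sum_insert hi]

lemma ell_le_It (hl : ∀ S, 0 ≤ l S) (hnu : ∀ S, 0 ≤ nu S) (n : ℕ)
    {g : Finset ι → Finset ι → ℝ} (h : ∀ J K, 0 ≤ g J K) :
    ell l nu n g ≤ It (ker (up nu)) (ker (up l)) (n + 1) g ∅ ∅ := by
  rw [It_succ']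
  exact It_mono (ker_up_nn hnu) (ker_up_nn hl)
    (Ev_le_Op (ker_up_nn hnu) (ker_up_nn hl) h) n ∅ ∅

/-! ### Point masses -/

/-- point mass at `S` -/
noncomputable def pm (S S' : Finset ι) : ℝ := if S' = S then 1 else 0

lemma pm_nonneg (S : Finset ι) : ∀ S', 0 ≤ pm S S' := fun S' => by
  unfold pm
  split_ifs <;> norm_num

lemma up_pm (S J : Finset ι) : up (pm S) J = if J ⊆ S then 1 else 0 := by
  unfold up pm
  have e : ∀ S', (if J ⊆ S' then (if S' = S then (1 : ℝ) else 0) else 0) =
      if S' = S then (if J ⊆ S then 1 else 0) else 0 := by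
    intro S'
    by_cases h : S' = S
    · rw [if_pos h, if_pos h, h]
    · rw [if_neg h, if_neg h]
      simp
  simp_rw [e]
  simp

lemma up_eq_pm (p : Finset ι → ℝ) (J : Finset ι) : up p J = ∑ S, p S * up (pm S) J := by
  simp_rw [up_pm]
  unfold up
  refine Finset.sum_congr rfl fun S _ => ?_
  split_ifs <;> simp

open Classical in
/-- probability that two independent random sets meet -/
noncomputable def meet (p q : Finset ι → ℝ) : ℝ :=
  ∑ S, ∑ T, p S * q T * (if (S ∩ T).Nonempty then 1 else 0)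

variable {l0 l1 n0 n1 : Finset ι → ℝ}

lemma ell_pm (hl : Law l0) (hnu : Law n0) {S T : Finset ι}
    (hS : ∀ T', n0 T' ≠ 0 → (S ∩ T').card = 1) (hT : ∀ S', l0 S' ≠ 0 → (S' ∩ T).card = 1)
    (n : ℕ) : ell l0 n0 n (fun J K => up (pm S) J * up (pm T) K) ≤
      if (S ∩ T).Nonempty then 1 else 0 := by
  classical
  have hb := ker_up_nn hnu.nonneg
  have ha := ker_up_nn hl.nonneg
  have c1 : Compat (pm S) n0 := by
    intro S' T' h1 h2
    have : S' = S := by
      by_contra h
      exact h1 (by simp [pm, h])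
    rw [this]
    exact hS T' h2
  have c2 : Compat l0 (pm T) := by
    intro S' T' h1 h2
    have : T' = T := by
      by_contra h
      exact h2 (by simp [pm, h])
    rw [this]
    exact hT S' h1
  have hs := Op_super (pm_nonneg S) (pm_nonneg T) hl.nonneg c1 c2
  have hnn : ∀ J K : Finset ι, 0 ≤ up (pm S) J * up (pm T) K := fun J K =>
    mul_nonneg (up_nonneg (pm_nonneg S) J) (up_nonneg (pm_nonneg T) K)
  split_ifs with h
  · have h2 : ∀ J K : Finset ι, Ev (ker (up n0)) (ker (up l0))
        (fun J K => up (pm S) J * up (pm T) K) J K ≤ up (pm S) J * up (pm T) K := fun J K =>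
      (Ev_le_Op hb ha hnn J K).trans (hs J K)
    have h3 := It_le_super hb ha h2 hs n ∅ ∅
    rw [up_pm, up_pm, if_pos (empty_subset _), if_pos (empty_subset _), mul_one] at h3
    exact h3
  · have e : Ev (ker (up n0)) (ker (up l0)) (fun J K => up (pm S) J * up (pm T) K) =
        fun _ _ => (0 : ℝ) := by
      funext J K
      unfold Ev
      refine Finset.sum_eq_zero fun j _ => ?_
      have : up (pm S) (insert j J) * up (pm T) (insert j K) = 0 := by
        rw [up_pm, up_pm]
        by_cases h1 : insert j J ⊆ S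
        · by_cases h2 : insert j K ⊆ T
          · exact absurd ⟨j, mem_inter.2 ⟨h1 (mem_insert_self _ _),
              h2 (mem_insert_self _ _)⟩⟩ h
          · rw [if_neg h2, mul_zero]
        · rw [if_neg h1, zero_mul]
      exact mul_eq_zero_of_right _ this
    unfold ell
    rw [e, It_zero_fun]

/-- the same announcement proves that the sets meet -/
lemma ell_le_meet (hl0 : Law l0) (hn0 : Law n0) (hl1 : Law l1) (hn1 : Law n1)
    (c10 : Compat l1 n0) (c01 : Compat l0 n1) (n : ℕ) :
    ell l0 n0 n (fun J K => up l1 J * up n1 K) ≤ meet l1 n1 := by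
  classical
  have e : (fun J K : Finset ι => up l1 J * up n1 K) = fun J K =>
      ∑ S, ∑ T, l1 S * n1 T * (up (pm S) J * up (pm T) K) := by
    funext J K
    rw [up_eq_pm l1, up_eq_pm n1, Finset.sum_mul_sum]
    refine Finset.sum_congr rfl fun S _ => Finset.sum_congr rfl fun T _ => ?_
    ring
  rw [e, ell_sum]
  unfold meet
  refine Finset.sum_le_sum fun S _ => ?_
  rw [ell_sum]
  refine Finset.sum_le_sum fun T _ => ?_
  rw [ell_smul]
  by_cases hS : l1 S = 0
  · rw [hS]
    simp
  by_cases hT : n1 T = 0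
  · rw [hT]
    simp
  refine mul_le_mul_of_nonneg_left ?_ (mul_nonneg (hl1.nonneg S) (hn1.nonneg T))
  exact ell_pm hl0 hn0 (fun T' h => c10 S T' hS h) (fun S' h => c01 S' T h hT) n

/-- cut and paste, pointwise -/
lemma cut_paste {a b c d : ℝ} (ha : 0 ≤ a) (hb : 0 ≤ b) (hc : 0 ≤ c) (hd : 0 ≤ d)
    (h : a * b = c * d) : c - |a - c| - |b - c| ≤ 3 / 4 * d + 1 / 3 * c := by
  have h1 : c - |a - c| - |b - c| ≤ a := by
    have e1 := neg_abs_le (a - c)
    have e2 := abs_nonneg (b - c)
    linarith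
  have h2 : c - |a - c| - |b - c| ≤ b := by
    have e1 := neg_abs_le (b - c)
    have e2 := abs_nonneg (a - c)
    linarith
  by_contra hcon
  push Not at hcon
  set m := c - |a - c| - |b - c| with hm
  have hm0 : 0 ≤ 3 / 4 * d + 1 / 3 * c := by positivity
  have h3 : m * m ≤ a * b := mul_le_mul h1 h2 (by linarith) ha
  have h4 : c * d ≤ (3 / 4 * d + 1 / 3 * c) ^ 2 := by
    nlinarith [sq_nonneg (3 / 4 * d - 1 / 3 * c)]
  nlinarith

/-- The inequality for one coordinate: if the two random sets `l1`, `n1` meet with probability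
at most one half, then the total error is not small. -/
theorem one_coordinate (hl0 : Law l0) (hl1 : Law l1) (hn0 : Law n0) (hn1 : Law n1)
    (c00 : Compat l0 n0) (c10 : Compat l1 n0) (c01 : Compat l0 n1)
    (hmeet : meet l1 n1 ≤ 1 / 2) (n : ℕ) :
    7 / 24 ≤ 2 * ((Fintype.card ι : ℝ) * (1 / 4) ^ n) +
      2 * ∑ r ∈ range (n + 1), XX l0 l1 n0 r + Xi l0 l1 n0 n + Xi n0 n1 l0 n := by
  have F0 := up_nonneg hl0.nonneg
  have F1 := up_nonneg hl1.nonneg
  have G0 := up_nonneg hn0.nonneg
  have G1 := up_nonneg hn1.nonneg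
  have hA1 : ∀ J K : Finset ι, 0 ≤ |up l1 J - up l0 J| * up n0 K := fun J K =>
    mul_nonneg (abs_nonneg _) (G0 K)
  have hB1 : ∀ J K : Finset ι, 0 ≤ up l0 J * |up n1 K - up n0 K| := fun J K =>
    mul_nonneg (F0 J) (abs_nonneg _)
  have hA : ell l0 n0 n (fun J K => |up l1 J - up l0 J| * up n0 K) ≤ Xi l0 l1 n0 n :=
    (ell_le_It hl0.nonneg hn0.nonneg n hA1).trans (unnoticed hl0 hl1 hn0 c00 c10 n)
  have hB : ell l0 n0 n (fun J K => up l0 J * |up n1 K - up n0 K|) ≤ Xi n0 n1 l0 n := by
    refine (ell_le_It hl0.nonneg hn0.nonneg n hB1).trans ?_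
    rw [It_swap]
    have h := unnoticed hn0 hn1 hl0 c00.symm c01.symm n
    have e : (fun K J : Finset ι => up l0 J * |up n1 K - up n0 K|) =
        fun J K : Finset ι => |up n1 J - up n0 J| * up l0 K := by
      funext K J
      ring
    rw [e]
    exact h
  have hpt : ell l0 n0 n (fun J K => (up l0 J * up n0 K - |up l1 J - up l0 J| * up n0 K) -
      up l0 J * |up n1 K - up n0 K|) ≤
      ell l0 n0 n (fun J K => 3 / 4 * (up l1 J * up n1 K) + 1 / 3 * (up l0 J * up n0 K)) := by
    refine ell_mono hl0.nonneg hn0.nonneg n fun J K => ?_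
    have h := cut_paste (a := up l1 J * up n0 K) (b := up l0 J * up n1 K)
      (c := up l0 J * up n0 K) (d := up l1 J * up n1 K)
      (mul_nonneg (F1 J) (G0 K)) (mul_nonneg (F0 J) (G1 K)) (mul_nonneg (F0 J) (G0 K))
      (mul_nonneg (F1 J) (G1 K)) (by ring)
    have e1 : |up l1 J * up n0 K - up l0 J * up n0 K| = |up l1 J - up l0 J| * up n0 K := by
      rw [← sub_mul, abs_mul, abs_of_nonneg (G0 K)]
    have e2 : |up l0 J * up n1 K - up l0 J * up n0 K| = up l0 J * |up n1 K - up n0 K| := by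
      rw [← mul_sub, abs_mul, abs_of_nonneg (F0 J)]
    rw [e1, e2] at h
    exact h
  rw [ell_sub n (fun J K => up l0 J * up n0 K - |up l1 J - up l0 J| * up n0 K)
      (fun J K => up l0 J * |up n1 K - up n0 K|),
    ell_sub n (fun J K => up l0 J * up n0 K) (fun J K => |up l1 J - up l0 J| * up n0 K),
    ell_add n (fun J K => 3 / 4 * (up l1 J * up n1 K)) (fun J K => 1 / 3 * (up l0 J * up n0 K)),
    ell_smul n (3 / 4) (fun J K => up l1 J * up n1 K),
    ell_smul n (1 / 3) (fun J K => up l0 J * up n0 K)] at hpt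
  have hc := same_announce hl0 hl1 hn0 c00 c10 n
  have hc' : 1 - 2 * ((Fintype.card ι : ℝ) * (1 / 4) ^ n) -
      2 * ∑ r ∈ range (n + 1), XX l0 l1 n0 r ≤ ell l0 n0 n (fun J K => up l0 J * up n0 K) := hc
  have hd := ell_le_meet hl0 hn0 hl1 hn1 c10 c01 n
  have hc1 : ell l0 n0 n (fun J K => up l0 J * up n0 K) ≤ 1 := by
    refine (ell_le_It hl0.nonneg hn0.nonneg n fun J K => mul_nonneg (F0 J) (G0 K)).trans ?_
    have h := It_super (ker_up_nn hn0.nonneg) (ker_up_nn hl0.nonneg)
      (Op_super hl0.nonneg hn0.nonneg hl0.nonneg c00 c00) (n + 1) ∅ ∅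
    rw [up_empty hl0, up_empty hn0, mul_one] at h
    exact h
  linarith

end Z50
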