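import Pool.Agent.Lib.MP_052029_lc.U.Law

/-!
The transition operators of the announcement process.
-/

set_option autoImplicit false

namespace Z50

open Finset

variable {ι : Type*} [Fintype ι] [DecidableEq ι]

/-- both sides announce an element: `b K j` is the weight of Alice's `j`, `a J k` the weight of
Bob's `k` -/
noncomputable def Op (b a : Finset ι → ι → ℝ) (g : Finset ι → Finset ι → ℝ)
    (J K : Finset ι) : ℝ :=
  ∑ j, ∑ k, b K j * a J k * g (insert j J) (insert k K)

/-- both sides announce the same element -/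
noncomputable def Ev (b a : Finset ι → ι → ℝ) (g : Finset ι → Finset ι → ℝ)
    (J K : Finset ι) : ℝ :=
  ∑ j, b K j * a J j * g (insert j J) (insert j K)

/-- the weights given by a function of sets -/
noncomputable def ker (F : Finset ι → ℝ) (J : Finset ι) (k : ι) : ℝ := F (insert k J) / F J

/-- a non-negative kernel -/
def NN (a : Finset ι → ι → ℝ) : Prop := ∀ J k, 0 ≤ a J k

omit [Fintype ι] in
lemma ker_nn {F : Finset ι → ℝ} (h : ∀ J, 0 ≤ F J) : NN (ker F) :=
  fun _ _ => div_nonneg (h _) (h _)

lemma ker_up_nn {p : Finset ι → ℝ} (hp : ∀ S, 0 ≤ p S) : NN (ker (up p)) :=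
  ker_nn (up_nonneg hp)

lemma ker_up_le_one {p : Finset ι → ℝ} (hp : ∀ S, 0 ≤ p S) (J : Finset ι) (k : ι) :
    ker (up p) J k ≤ 1 := by
  unfold ker
  have h1 := up_nonneg hp J
  have h2 := up_insert_le hp J k
  rcases h1.eq_or_lt with h | h
  · rw [← h, div_zero]
    norm_num
  · rw [div_le_one h]
    exact h2

variable {b a : Finset ι → ι → ℝ}

lemma Op_mono (hb : NN b) (ha : NN a) {g g' : Finset ι → Finset ι → ℝ}
    (h : ∀ J K, g J K ≤ g' J K) (J K : Finset ι) : Op b a g J K ≤ Op b a g' J K := by
  unfold Op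
  refine Finset.sum_le_sum fun j _ => Finset.sum_le_sum fun k _ => ?_
  exact mul_le_mul_of_nonneg_left (h _ _) (mul_nonneg (hb _ _) (ha _ _))

lemma Ev_mono (hb : NN b) (ha : NN a) {g g' : Finset ι → Finset ι → ℝ}
    (h : ∀ J K, g J K ≤ g' J K) (J K : Finset ι) : Ev b a g J K ≤ Ev b a g' J K := by
  unfold Ev
  refine Finset.sum_le_sum fun j _ => ?_
  exact mul_le_mul_of_nonneg_left (h _ _) (mul_nonneg (hb _ _) (ha _ _))

lemma Op_nonneg (hb : NN b) (ha : NN a) {g : Finset ι → Finset ι → ℝ}
    (h : ∀ J K, 0 ≤ g J K) (J K : Finset ι) : 0 ≤ Op b a g J K := by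
  unfold Op
  refine Finset.sum_nonneg fun j _ => Finset.sum_nonneg fun k _ => ?_
  exact mul_nonneg (mul_nonneg (hb _ _) (ha _ _)) (h _ _)

lemma Ev_nonneg (hb : NN b) (ha : NN a) {g : Finset ι → Finset ι → ℝ}
    (h : ∀ J K, 0 ≤ g J K) (J K : Finset ι) : 0 ≤ Ev b a g J K := by
  unfold Ev
  refine Finset.sum_nonneg fun j _ => ?_
  exact mul_nonneg (mul_nonneg (hb _ _) (ha _ _)) (h _ _)

lemma Op_add (g g' : Finset ι → Finset ι → ℝ) (J K : Finset ι) :
    Op b a (fun J K => g J K + g' J K) J K = Op b a g J K + Op b a g' J K := by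
  unfold Op
  simp_rw [mul_add, Finset.sum_add_distrib]

lemma Op_sub (g g' : Finset ι → Finset ι → ℝ) (J K : Finset ι) :
    Op b a (fun J K => g J K - g' J K) J K = Op b a g J K - Op b a g' J K := by
  unfold Op
  simp_rw [mul_sub, Finset.sum_sub_distrib]

lemma Op_smul (c : ℝ) (g : Finset ι → Finset ι → ℝ) (J K : Finset ι) :
    Op b a (fun J K => c * g J K) J K = c * Op b a g J K := by
  unfold Op
  rw [Finset.mul_sum]
  refine Finset.sum_congr rfl fun j _ => ?_
  rw [Finset.mul_sum]
  refine Finset.sum_congr rfl fun k _ => ?_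
  ring

lemma Ev_add (g g' : Finset ι → Finset ι → ℝ) (J K : Finset ι) :
    Ev b a (fun J K => g J K + g' J K) J K = Ev b a g J K + Ev b a g' J K := by
  unfold Ev
  simp_rw [mul_add, Finset.sum_add_distrib]

lemma Ev_sub (g g' : Finset ι → Finset ι → ℝ) (J K : Finset ι) :
    Ev b a (fun J K => g J K - g' J K) J K = Ev b a g J K - Ev b a g' J K := by
  unfold Ev
  simp_rw [mul_sub, Finset.sum_sub_distrib]

lemma Ev_smul (c : ℝ) (g : Finset ι → Finset ι → ℝ) (J K : Finset ι) :
    Ev b a (fun J K => c * g J K) J K = c * Ev b a g J K := by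
  unfold Ev
  rw [Finset.mul_sum]
  refine Finset.sum_congr rfl fun j _ => ?_
  ring

lemma Ev_le_Op (hb : NN b) (ha : NN a) {g : Finset ι → Finset ι → ℝ}
    (h : ∀ J K, 0 ≤ g J K) (J K : Finset ι) : Ev b a g J K ≤ Op b a g J K := by
  unfold Ev Op
  refine Finset.sum_le_sum fun j _ => ?_
  exact Finset.single_le_sum
    (f := fun k => b K j * a J k * g (insert j J) (insert k K))
    (fun k _ => mul_nonneg (mul_nonneg (hb _ _) (ha _ _)) (h _ _)) (mem_univ j)

lemma Op_prod (f g : Finset ι → ℝ) (J K : Finset ι) :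
    Op b a (fun J K => f J * g K) J K =
      (∑ j, b K j * f (insert j J)) * (∑ k, a J k * g (insert k K)) := by
  unfold Op
  rw [Finset.sum_mul_sum]
  refine Finset.sum_congr rfl fun j _ => Finset.sum_congr rfl fun k _ => ?_
  ring

/-! ### Iterates -/

/-- the iterates of the operator -/
noncomputable def It (b a : Finset ι → ι → ℝ) (n : ℕ) (g : Finset ι → Finset ι → ℝ) :
    Finset ι → Finset ι → ℝ := (Op b a)^[n] g

lemma It_zero (g : Finset ι → Finset ι → ℝ) : It b a 0 g = g := rfl

lemma It_succ (n : ℕ) (g : Finset ι → Finset ι → ℝ) :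
    It b a (n + 1) g = Op b a (It b a n g) := Function.iterate_succ_apply' _ _ _

lemma It_succ' (n : ℕ) (g : Finset ι → Finset ι → ℝ) :
    It b a (n + 1) g = It b a n (Op b a g) := Function.iterate_succ_apply _ _ _

lemma It_mono (hb : NN b) (ha : NN a) {g g' : Finset ι → Finset ι → ℝ}
    (h : ∀ J K, g J K ≤ g' J K) (n : ℕ) : ∀ J K : Finset ι, It b a n g J K ≤ It b a n g' J K := by
  induction n with
  | zero => exact h
  | succ n ih =>
    intro J K
    rw [It_succ, It_succ]
    exact Op_mono hb ha ih J K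

lemma It_nonneg (hb : NN b) (ha : NN a) {g : Finset ι → Finset ι → ℝ}
    (h : ∀ J K, 0 ≤ g J K) (n : ℕ) : ∀ J K : Finset ι, 0 ≤ It b a n g J K := by
  induction n with
  | zero => exact h
  | succ n ih =>
    intro J K
    rw [It_succ]
    exact Op_nonneg hb ha ih J K

lemma It_add (g g' : Finset ι → Finset ι → ℝ) (n : ℕ) : ∀ J K : Finset ι,
    It b a n (fun J K => g J K + g' J K) J K = It b a n g J K + It b a n g' J K := by
  induction n with
  | zero => exact fun _ _ => rfl
  | succ n ih =>
    intro J K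
    have e : It b a n (fun J K => g J K + g' J K) =
        fun J K => It b a n g J K + It b a n g' J K := by
      funext J K
      exact ih J K
    rw [It_succ, It_succ, It_succ, e, Op_add]

lemma It_sub (g g' : Finset ι → Finset ι → ℝ) (n : ℕ) : ∀ J K : Finset ι,
    It b a n (fun J K => g J K - g' J K) J K = It b a n g J K - It b a n g' J K := by
  induction n with
  | zero => exact fun _ _ => rfl
  | succ n ih =>
    intro J K
    have e : It b a n (fun J K => g J K - g' J K) =
        fun J K => It b a n g J K - It b a n g' J K := by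
      funext J K
      exact ih J K
    rw [It_succ, It_succ, It_succ, e, Op_sub]

lemma It_smul (c : ℝ) (g : Finset ι → Finset ι → ℝ) (n : ℕ) : ∀ J K : Finset ι,
    It b a n (fun J K => c * g J K) J K = c * It b a n g J K := by
  induction n with
  | zero => exact fun _ _ => rfl
  | succ n ih =>
    intro J K
    have e : It b a n (fun J K => c * g J K) = fun J K => c * It b a n g J K := by
      funext J K
      exact ih J K
    rw [It_succ, It_succ, e, Op_smul]

lemma It_zero_fun (n : ℕ) (J K : Finset ι) : It b a n (fun _ _ => (0 : ℝ)) J K = 0 := by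
  have h := It_smul (b := b) (a := a) 0 (fun _ _ => (0 : ℝ)) n J K
  simpa using h

lemma It_sum {κ : Type*} (s : Finset κ) (g : κ → Finset ι → Finset ι → ℝ) (n : ℕ)
    (J K : Finset ι) :
    It b a n (fun J K => ∑ i ∈ s, g i J K) J K = ∑ i ∈ s, It b a n (g i) J K := by
  classical
  induction s using Finset.induction_on with
  | empty =>
    simp only [Finset.sum_empty]
    exact It_zero_fun n J K
  | insert i s hi ih =>
    rw [Finset.sum_insert hi, ← ih, ← It_add]
    simp_rw [Finset.sum_insert hi]

/-! ### Normalisation -/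

/-- the weights of the elements of a random set sum up to at most one -/
lemma ker_sum {p q : Finset ι → ℝ} (h : Compat p q) (J K : Finset ι) :
    ∑ j, ker (up q) K j * up p (insert j J) = if up q K = 0 then 0 else up p J := by
  unfold ker
  have e : ∀ j, up q (insert j K) / up q K * up p (insert j J) =
      up p (insert j J) * up q (insert j K) / up q K := fun j => by ring
  simp_rw [e]
  rw [← Finset.sum_div, ki h]
  split_ifs with h0
  · rw [h0, div_zero]
  · field_simp

lemma ker_sum_le {p q : Finset ι → ℝ} (hp : ∀ S, 0 ≤ p S) (h : Compat p q) (J K : Finset ι) :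
    ∑ j, ker (up q) K j * up p (insert j J) ≤ up p J := by
  rw [ker_sum h]
  split_ifs
  · exact up_nonneg hp J
  · exact le_refl _

lemma Op_super {p' q' lam nu : Finset ι → ℝ} (hp' : ∀ S, 0 ≤ p' S) (hq' : ∀ S, 0 ≤ q' S)
    (hlam : ∀ S, 0 ≤ lam S)
    (h1 : Compat p' nu) (h2 : Compat lam q') (J K : Finset ι) :
    Op (ker (up nu)) (ker (up lam)) (fun J K => up p' J * up q' K) J K ≤ up p' J * up q' K := by
  rw [Op_prod]
  have e1 := ker_sum_le hp' h1 J K
  have e2 := ker_sum_le hq' h2.symm K J
  refine mul_le_mul e1 e2 ?_ (up_nonneg hp' J)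
  exact Finset.sum_nonneg fun k _ => mul_nonneg (ker_up_nn hlam _ _) (up_nonneg hq' _)

lemma It_super (hb : NN b) (ha : NN a) {h : Finset ι → Finset ι → ℝ}
    (hh : ∀ J K, Op b a h J K ≤ h J K) (n : ℕ) : ∀ J K : Finset ι, It b a n h J K ≤ h J K := by
  induction n with
  | zero => exact fun _ _ => le_refl _
  | succ n ih =>
    intro J K
    rw [It_succ]
    exact (Op_mono hb ha ih J K).trans (hh J K)

end Z50
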